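import Mathlib

/-!
Symmetric quartic tensors in three variables and their polar forms.
-/

namespace Pool.Agent.Work.MP_d5a5f5_ag.DP

open MvPolynomial

/-- A symmetric quartic tensor. -/
structure Quartic (k : Type*) where
  t : Fin 3 → Fin 3 → Fin 3 → Fin 3 → k
  s12 : ∀ i j l m, t i j l m = t j i l m
  s23 : ∀ i j l m, t i j l m = t i l j m
  s34 : ∀ i j l m, t i j l m = t i j m l

variable {k : Type*} [Field k]

/-- The polar form. -/
def Quartic.Φ (F : Quartic k) {A : Type*} [CommRing A] [Algebra k A] (a b c d : Fin 3 → A) : A :=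
  ∑ i, ∑ j, ∑ l, ∑ m, algebraMap k A (F.t i j l m) * (a i * b j * c l * d m)

section
variable (F : Quartic k) {A : Type*} [CommRing A] [Algebra k A] (a b c d a' : Fin 3 → A) (r : A)

theorem Φ_add1 : F.Φ (a + a') b c d = F.Φ a b c d + F.Φ a' b c d := by
  simp only [Quartic.Φ, Pi.add_apply, add_mul, mul_add, Finset.sum_add_distrib]

theorem Φ_add2 : F.Φ a (b + a') c d = F.Φ a b c d + F.Φ a a' c d := by
  simp only [Quartic.Φ, Pi.add_apply, add_mul, mul_add, Finset.sum_add_distrib]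

theorem Φ_add3 : F.Φ a b (c + a') d = F.Φ a b c d + F.Φ a b a' d := by
  simp only [Quartic.Φ, Pi.add_apply, add_mul, mul_add, Finset.sum_add_distrib]

theorem Φ_add4 : F.Φ a b c (d + a') = F.Φ a b c d + F.Φ a b c a' := by
  simp only [Quartic.Φ, Pi.add_apply, mul_add, Finset.sum_add_distrib]

theorem Φ_smul1 : F.Φ (r • a) b c d = r * F.Φ a b c d := by
  simp only [Quartic.Φ, Pi.smul_apply, smul_eq_mul, Finset.mul_sum]
  refine Finset.sum_congr rfl fun i _ => Finset.sum_congr rfl fun j _ =>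
    Finset.sum_congr rfl fun l _ => Finset.sum_congr rfl fun m _ => by ring

theorem Φ_smul2 : F.Φ a (r • b) c d = r * F.Φ a b c d := by
  simp only [Quartic.Φ, Pi.smul_apply, smul_eq_mul, Finset.mul_sum]
  refine Finset.sum_congr rfl fun i _ => Finset.sum_congr rfl fun j _ =>
    Finset.sum_congr rfl fun l _ => Finset.sum_congr rfl fun m _ => by ring

theorem Φ_smul3 : F.Φ a b (r • c) d = r * F.Φ a b c d := by
  simp only [Quartic.Φ, Pi.smul_apply, smul_eq_mul, Finset.mul_sum]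
  refine Finset.sum_congr rfl fun i _ => Finset.sum_congr rfl fun j _ =>
    Finset.sum_congr rfl fun l _ => Finset.sum_congr rfl fun m _ => by ring

theorem Φ_smul4 : F.Φ a b c (r • d) = r * F.Φ a b c d := by
  simp only [Quartic.Φ, Pi.smul_apply, smul_eq_mul, Finset.mul_sum]
  refine Finset.sum_congr rfl fun i _ => Finset.sum_congr rfl fun j _ =>
    Finset.sum_congr rfl fun l _ => Finset.sum_congr rfl fun m _ => by ring

theorem Φ_zero1 : F.Φ 0 b c d = 0 := by simp [Quartic.Φ]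
theorem Φ_zero2 : F.Φ a 0 c d = 0 := by simp [Quartic.Φ]
theorem Φ_zero3 : F.Φ a b 0 d = 0 := by simp [Quartic.Φ]
theorem Φ_zero4 : F.Φ a b c 0 = 0 := by simp [Quartic.Φ]

theorem Φ_neg1 : F.Φ (-a) b c d = - F.Φ a b c d := by
  rw [← neg_one_smul A a, Φ_smul1]; ring
theorem Φ_neg2 : F.Φ a (-b) c d = - F.Φ a b c d := by
  rw [← neg_one_smul A b, Φ_smul2]; ring
theorem Φ_neg3 : F.Φ a b (-c) d = - F.Φ a b c d := by
  rw [← neg_one_smul A c, Φ_smul3]; ring
theorem Φ_neg4 : F.Φ a b c (-d) = - F.Φ a b c d := by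
  rw [← neg_one_smul A d, Φ_smul4]; ring

theorem Φ_sub1 : F.Φ (a - a') b c d = F.Φ a b c d - F.Φ a' b c d := by
  rw [sub_eq_add_neg, Φ_add1, Φ_neg1]; ring
theorem Φ_sub2 : F.Φ a (b - a') c d = F.Φ a b c d - F.Φ a a' c d := by
  rw [sub_eq_add_neg, Φ_add2, Φ_neg2]; ring
theorem Φ_sub3 : F.Φ a b (c - a') d = F.Φ a b c d - F.Φ a b a' d := by
  rw [sub_eq_add_neg, Φ_add3, Φ_neg3]; ring
theorem Φ_sub4 : F.Φ a b c (d - a') = F.Φ a b c d - F.Φ a b c a' := by
  rw [sub_eq_add_neg, Φ_add4, Φ_neg4]; ring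

theorem Φ_s12 : F.Φ a b c d = F.Φ b a c d := by
  unfold Quartic.Φ
  rw [Finset.sum_comm]
  refine Finset.sum_congr rfl fun i _ => Finset.sum_congr rfl fun j _ =>
    Finset.sum_congr rfl fun l _ => Finset.sum_congr rfl fun m _ => ?_
  rw [F.s12]; ring

theorem Φ_s23 : F.Φ a b c d = F.Φ a c b d := by
  unfold Quartic.Φ
  refine Finset.sum_congr rfl fun i _ => ?_
  rw [Finset.sum_comm]
  refine Finset.sum_congr rfl fun j _ =>
    Finset.sum_congr rfl fun l _ => Finset.sum_congr rfl fun m _ => ?_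
  rw [F.s23]; ring

theorem Φ_s34 : F.Φ a b c d = F.Φ a b d c := by
  unfold Quartic.Φ
  refine Finset.sum_congr rfl fun i _ => Finset.sum_congr rfl fun j _ => ?_
  rw [Finset.sum_comm]
  refine Finset.sum_congr rfl fun l _ => Finset.sum_congr rfl fun m _ => ?_
  rw [F.s34]; ring

theorem Φ_map {B : Type*} [CommRing B] [Algebra k B] (f : A →ₐ[k] B) :
    f (F.Φ a b c d) = F.Φ (fun i => f (a i)) (fun i => f (b i)) (fun i => f (c i))
      (fun i => f (d i)) := by
  simp [Quartic.Φ, map_sum]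

theorem Φ_der (δ : Derivation k A A) :
    δ (F.Φ a b c d) = F.Φ (fun i => δ (a i)) b c d + F.Φ a (fun i => δ (b i)) c d +
      F.Φ a b (fun i => δ (c i)) d + F.Φ a b c (fun i => δ (d i)) := by
  simp only [Quartic.Φ, map_sum, ← Finset.sum_add_distrib]
  refine Finset.sum_congr rfl fun i _ => Finset.sum_congr rfl fun j _ =>
    Finset.sum_congr rfl fun l _ => Finset.sum_congr rfl fun m _ => ?_
  simp only [Derivation.leibniz, Derivation.map_algebraMap, smul_eq_mul, mul_zero, add_zero]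
  ring

/-- linear in the last argument, expanded in the standard basis -/
theorem Φ_basis : F.Φ a b c d = ∑ i, d i * F.Φ a b c (Pi.single i 1) := by
  have : d = ∑ i, d i • (Pi.single i 1 : Fin 3 → A) := by
    ext j; simp [Finset.sum_apply, Pi.single_apply]
  conv_lhs => rw [this]
  simp only [Fin.sum_univ_three, Φ_add4, Φ_smul4]

end

end Pool.Agent.Work.MP_d5a5f5_ag.DP
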