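import Pool.Agent.Work.MP_d5a5f5_ag.DP.Step2

/-!
Existence of a moving rational curve: the general case, and two lemmas for the other cases.
-/

namespace Pool.Agent.Work.MP_d5a5f5_ag.DP

set_option linter.unusedSimpArgs false

open Polynomial

variable {k : Type*} [Field k]

/-- there is a rational curve on the surface `w² = Q` which is not constant in the plane and not
contained in the branch curve -/
def HasCurve (F : Quartic k) : Prop :=
  ∃ (p : Fin 3 → k[X]) (w : k[X]), F.Φ p p p p = w ^ 2 ∧ w ≠ 0 ∧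
    ¬ ∀ i j, p i * derivative (p j) = p j * derivative (p i)

theorem hasCurve_of [CharZero k] (F : Quartic k) (hF : F.Sm) (p : Fin 3 → k[X]) (w : k[X])
    (h : F.Φ p p p p = w ^ 2) (hp : ¬ ∀ i j, p i * derivative (p j) = p j * derivative (p i)) :
    HasCurve F := by
  refine ⟨p, w, h, fun hw => hp (NR F hF p ?_), hp⟩
  rw [h, hw]; ring

theorem ΦC (F : Quartic k) (a b c d : Fin 3 → k) :
    F.Φ (fun i => C (a i)) (fun i => C (b i)) (fun i => C (c i)) (fun i => C (d i)) =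
      C (F.Φ a b c d) := by
  have := Φ_map F a b c d (Algebra.ofId k k[X])
  simpa [Algebra.ofId_apply] using this.symm

/-- the general case -/
theorem caseI [CharZero k] (F : Quartic k) (hF : F.Sm) (p : Fin 3 → k) (w : k)
    (hw : F.Φ p p p p = w ^ 2) (hw0 : w ≠ 0) (a : Fin 3 → k) (hc : ct F w p a ≠ 0) :
    HasCurve F := by
  obtain ⟨b, hb⟩ := exists_compl F p a w hw hc hw0
  obtain ⟨h1, h2⟩ := NRline F hF p a b w hw hc hw0 hb
  set R : Fin 3 → k[X] := RR F (C w) (fun i => C (p i)) (fun i => C (a i) + X * C (b i)) with hR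
  have hwC : F.Φ (fun i => C (p i)) (fun i => C (p i)) (fun i => C (p i)) (fun i => C (p i))
      = (C w) ^ 2 := by rw [ΦC, hw, C_pow]
  refine hasCurve_of F hF ((C w) ^ 2 • R) (C w * qt F (C w) (fun i => C (p i)) R)
    (Φ_point hwC).symm fun h => h2 fun i j => ?_
  have h3 := h i j
  simp only [Pi.smul_apply, smul_eq_mul, ← C_pow, derivative_C_mul] at h3
  have h4 : (C (w ^ 2) : k[X]) ^ 2 ≠ 0 := by
    rw [← C_pow]; simpa using hw0
  apply mul_left_cancel₀ h4
  linear_combination h3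

/-- the quartic in a basis -/
theorem Φ_basis3 (F : Quartic k) {A : Type*} [CommRing A] [Algebra k A] (p v b : Fin 3 → A)
    (z x y : A) :
    F.Φ (z • p + x • v + y • b) (z • p + x • v + y • b) (z • p + x • v + y • b)
      (z • p + x • v + y • b) = z ^ 4 * F.Φ p p p p + 4 * z ^ 3 * x * F.Φ p p p v
      + 4 * z ^ 3 * y * F.Φ p p p b + 6 * z ^ 2 * x ^ 2 * F.Φ p p v v
      + 12 * z ^ 2 * x * y * F.Φ p p v b + 6 * z ^ 2 * y ^ 2 * F.Φ p p b b
      + 4 * z * x ^ 3 * F.Φ p v v v + 12 * z * x ^ 2 * y * F.Φ p v v b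
      + 12 * z * x * y ^ 2 * F.Φ p v b b + 4 * z * y ^ 3 * F.Φ p b b b
      + x ^ 4 * F.Φ v v v v + 4 * x ^ 3 * y * F.Φ v v v b + 6 * x ^ 2 * y ^ 2 * F.Φ v v b b
      + 4 * x * y ^ 3 * F.Φ v b b b + y ^ 4 * F.Φ b b b b := by
  simp only [Φ_add1, Φ_add2, Φ_add3, Φ_add4, Φ_sub1, Φ_sub2,
      Φ_sub3, Φ_sub4, Φ_smul1, Φ_smul2, Φ_smul3, Φ_smul4]
  simp only [Φ_s12 F v p, Φ_s12 F b p, Φ_s12 F b v, Φ_s23 F _ v p, Φ_s23 F _ b p, Φ_s23 F _ b v,
    Φ_s34 F _ _ v p, Φ_s34 F _ _ b p, Φ_s34 F _ _ b v]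
  ring

/-- Cramer's rule -/
theorem Φ_cramer (F : Quartic k) {A : Type*} [CommRing A] [Algebra k A] (x p y z v : Fin 3 → A) :
    dt p y z * F.Φ x x x v = dt v y z * F.Φ x x x p + dt p v z * F.Φ x x x y
      + dt p y v * F.Φ x x x z := by
  have h : dt p y z • v = dt v y z • p + dt p v z • y + dt p y v • z := by
    ext i
    simp only [dt, Pi.add_apply, Pi.smul_apply, smul_eq_mul]
    fin_cases i <;> simp <;> ring
  rw [← Φ_smul4, h, Φ_add4, Φ_add4, Φ_smul4, Φ_smul4, Φ_smul4]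

/-- nonconstancy in a basis -/
theorem par_basis {A : Type*} [CommRing A] [IsDomain A] {p v b : Fin 3 → A} {z x y z' x' y' : A}
    (hd : dt p v b ≠ 0)
    (h : ∀ i j, (z • p + x • v + y • b) i * (z' • p + x' • v + y' • b) j =
      (z • p + x • v + y • b) j * (z' • p + x' • v + y' • b) i) :
    x * y' = x' * y ∧ z * x' = z' * x ∧ z * y' = z' * y := by
  have e1 : ∀ z x y : A, dt (z • p + x • v + y • b) b p = x * dt p v b := by
    intro z x y; simp only [dt, Pi.add_apply, Pi.smul_apply, smul_eq_mul]; ring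
  have e2 : ∀ z x y : A, dt (z • p + x • v + y • b) p v = y * dt p v b := by
    intro z x y; simp only [dt, Pi.add_apply, Pi.smul_apply, smul_eq_mul]; ring
  have e3 : ∀ z x y : A, dt (z • p + x • v + y • b) v b = z * dt p v b := by
    intro z x y; simp only [dt, Pi.add_apply, Pi.smul_apply, smul_eq_mul]; ring
  have h1 := par_dt h b p p v
  have h2 := par_dt h v b b p
  have h3 := par_dt h v b p v
  rw [e1, e2, e1, e2] at h1
  rw [e3, e1, e3, e1] at h2
  rw [e3, e2, e3, e2] at h3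
  have hd2 : dt p v b ^ 2 ≠ 0 := pow_ne_zero 2 hd
  refine ⟨?_, ?_, ?_⟩ <;> apply mul_left_cancel₀ hd2
  · linear_combination h1
  · linear_combination h2
  · linear_combination h3

end Pool.Agent.Work.MP_d5a5f5_ag.DP
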