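import Pool.Agent.Work.MP_d5a5f5_ag.DP.CaseI

/-!
Generalised Eckardt points.
-/

namespace Pool.Agent.Work.MP_d5a5f5_ag.DP

open Polynomial

variable {k : Type*} [Field k]

/-- the family of curves, as an identity -/
theorem core2 (F : Quartic k) {A : Type*} [CommRing A] [Algebra k A] (p v b : Fin 3 → A)
    (w T c1 c2 A3 A4 d0 b1 b2 h l0 l1 ζ : A)
    (q0 : F.Φ p p p p = w ^ 2) (q1 : F.Φ p p p v = 0) (q2 : F.Φ p p p b = 0)
    (q3 : F.Φ p v v v = 0) (q4 : F.Φ p v v b = 0) (q5 : F.Φ p v b b = 0) (q6 : F.Φ p b b b = 0)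
    (r1 : 3 * F.Φ p p v v = 2 * d0 * w ^ 2) (r2 : 6 * F.Φ p p v b = b1 * w ^ 2)
    (r3 : 3 * F.Φ p p b b = b2 * w ^ 2) (r4 : F.Φ v v v v = w ^ 2 * (4 * h + 4 * d0 ^ 2))
    (r5 : 4 * F.Φ v v v b = w ^ 2 * (8 * h * c1 + 4 * d0 * b1))
    (r6 : 6 * F.Φ v v b b = w ^ 2 * (4 * h * (2 * c2 + c1 ^ 2) + 4 * d0 * b2 + b1 ^ 2))
    (r7 : 4 * F.Φ v b b b = w ^ 2 * (4 * h * A3 + 2 * b1 * b2))
    (r8 : F.Φ b b b b = w ^ 2 * (4 * h * A4 + b2 ^ 2))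
    (hl0 : l0 = A3 * T ^ 3 - b1 * T - 2 * c1 * T * (c2 * T ^ 2 - d0))
    (hl1 : l1 = A4 * T ^ 4 - b2 * T ^ 2 - h - (c2 * T ^ 2 - d0) ^ 2)
    (hζ : ζ = l1 ^ 2 - c1 * T * l0 * l1 + (c2 * T ^ 2 - d0) * l0 ^ 2) :
    F.Φ (ζ • p + (-(l0 * l1)) • v + (l0 ^ 2 * T) • b) (ζ • p + (-(l0 * l1)) • v + (l0 ^ 2 * T) • b)
      (ζ • p + (-(l0 * l1)) • v + (l0 ^ 2 * T) • b) (ζ • p + (-(l0 * l1)) • v + (l0 ^ 2 * T) • b) =
    (w * (ζ ^ 2 + l0 ^ 2 * (2 * d0 * l1 ^ 2 - b1 * l0 * l1 * T + b2 * l0 ^ 2 * T ^ 2)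
      + 2 * h * l0 ^ 4)) ^ 2 := by
  have hζ2 : ζ ^ 2 = l1 ^ 4 - (2 * c1 * T) * l1 ^ 3 * l0
      + ((2 * c2 + c1 ^ 2) * T ^ 2 - 2 * d0) * l1 ^ 2 * l0 ^ 2
      - (A3 * T ^ 3 - b1 * T) * l1 * l0 ^ 3 + (A4 * T ^ 4 - b2 * T ^ 2 - h) * l0 ^ 4 := by
    rw [hζ]
    linear_combination (-(l1 * l0 ^ 3)) * hl0 + (l0 ^ 4) * hl1
  rw [Φ_basis3, q0, q1, q2, q3, q4, q5, q6]
  set μ : A := -(l0 * l1) with hμ
  set ν : A := l0 ^ 2 * T with hν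
  have e1 : ζ ^ 4 * w ^ 2 + 4 * ζ ^ 3 * μ * 0 + 4 * ζ ^ 3 * ν * 0 + 6 * ζ ^ 2 * μ ^ 2 * F.Φ p p v v
      + 12 * ζ ^ 2 * μ * ν * F.Φ p p v b + 6 * ζ ^ 2 * ν ^ 2 * F.Φ p p b b
      + 4 * ζ * μ ^ 3 * 0 + 12 * ζ * μ ^ 2 * ν * 0 + 12 * ζ * μ * ν ^ 2 * 0
      + 4 * ζ * ν ^ 3 * 0 + μ ^ 4 * F.Φ v v v v + 4 * μ ^ 3 * ν * F.Φ v v v b
      + 6 * μ ^ 2 * ν ^ 2 * F.Φ v v b b + 4 * μ * ν ^ 3 * F.Φ v b b b + ν ^ 4 * F.Φ b b b b =
      w ^ 2 * ((ζ ^ 2 + (2 * d0 * μ ^ 2 + b1 * μ * ν + b2 * ν ^ 2)) ^ 2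
        + 4 * h * (μ ^ 4 + 2 * c1 * μ ^ 3 * ν + (2 * c2 + c1 ^ 2) * μ ^ 2 * ν ^ 2
          + A3 * μ * ν ^ 3 + A4 * ν ^ 4)) := by
    linear_combination 2 * ζ ^ 2 * μ ^ 2 * r1 + 2 * ζ ^ 2 * μ * ν * r2 + 2 * ζ ^ 2 * ν ^ 2 * r3
      + μ ^ 4 * r4 + μ ^ 3 * ν * r5 + μ ^ 2 * ν ^ 2 * r6 + μ * ν ^ 3 * r7 + ν ^ 4 * r8
  rw [e1, hμ, hν]
  linear_combination (-4 * h * w ^ 2 * l0 ^ 4) * hζ2

theorem wronsk (m3 n1 m4 n2 n3 : k) (l0 l1 : k[X]) (h0 : l0 = C m3 * X ^ 3 + C n1 * X)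
    (h1 : l1 = C m4 * X ^ 4 + C n2 * X ^ 2 + C n3)
    (h : l0 * derivative l1 * X - l1 * derivative l0 * X - l0 * l1 = 0) :
    4 * m3 * n3 = 0 := by
  have d0 : derivative l0 = C (3 * m3) * X ^ 2 + C n1 := by
    rw [h0]
    simp only [derivative_add, derivative_C_mul, derivative_X_pow, derivative_X, Nat.cast_ofNat,
      C_mul, map_ofNat, Nat.add_one_sub_one]
    ring
  have d1 : derivative l1 = C (4 * m4) * X ^ 3 + C (2 * n2) * X := by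
    rw [h1]
    simp only [derivative_add, derivative_C_mul, derivative_X_pow, derivative_C, Nat.cast_ofNat,
      C_mul, map_ofNat, Nat.reduceSub]
    ring
  rw [d0, d1, h0, h1] at h
  have h2 : (C (2 * n1 * m4 - 2 * m3 * n2) * X ^ 5 + C (-(4 * m3 * n3)) * X ^ 3
      + C (- 2 * n1 * n3) * X : k[X]) = 0 := by
    rw [← h]
    simp only [C_sub, C_mul, C_neg, map_ofNat]
    ring
  have h3 := congrArg (fun q => coeff q 3) h2
  simp only [coeff_add, coeff_C_mul, coeff_X_pow, coeff_X, coeff_zero] at h3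
  norm_num at h3
  rcases h3 with (h3 | h3) | h3
  · rw [h3]; ring
  · rw [h3]; ring
  · rw [h3]; ring

theorem caseII_core [CharZero k] (F : Quartic k) (hF : F.Sm) (p v b : Fin 3 → k)
    (w c1 c2 A3 A4 d0 b1 b2 h : k) (hd : dt p v b ≠ 0)
    (q0 : F.Φ p p p p = w ^ 2) (q1 : F.Φ p p p v = 0) (q2 : F.Φ p p p b = 0)
    (q3 : F.Φ p v v v = 0) (q4 : F.Φ p v v b = 0) (q5 : F.Φ p v b b = 0) (q6 : F.Φ p b b b = 0)
    (r1 : 3 * F.Φ p p v v = 2 * d0 * w ^ 2) (r2 : 6 * F.Φ p p v b = b1 * w ^ 2)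
    (r3 : 3 * F.Φ p p b b = b2 * w ^ 2) (r4 : F.Φ v v v v = w ^ 2 * (4 * h + 4 * d0 ^ 2))
    (r5 : 4 * F.Φ v v v b = w ^ 2 * (8 * h * c1 + 4 * d0 * b1))
    (r6 : 6 * F.Φ v v b b = w ^ 2 * (4 * h * (2 * c2 + c1 ^ 2) + 4 * d0 * b2 + b1 ^ 2))
    (r7 : 4 * F.Φ v b b b = w ^ 2 * (4 * h * A3 + 2 * b1 * b2))
    (r8 : F.Φ b b b b = w ^ 2 * (4 * h * A4 + b2 ^ 2))
    (hm3 : A3 - 2 * c1 * c2 ≠ 0) (hn3 : h + d0 ^ 2 ≠ 0) : HasCurve F := by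
  obtain ⟨l0, hl0⟩ : ∃ l0 : k[X], l0 = C A3 * X ^ 3 - C b1 * X
    - 2 * C c1 * X * (C c2 * X ^ 2 - C d0) := ⟨_, rfl⟩
  obtain ⟨l1, hl1⟩ : ∃ l1 : k[X], l1 = C A4 * X ^ 4 - C b2 * X ^ 2 - C h
    - (C c2 * X ^ 2 - C d0) ^ 2 := ⟨_, rfl⟩
  obtain ⟨ζ, hζ⟩ : ∃ ζ : k[X], ζ = l1 ^ 2 - C c1 * X * l0 * l1
    + (C c2 * X ^ 2 - C d0) * l0 ^ 2 := ⟨_, rfl⟩
  have e0 : l0 = C (A3 - 2 * c1 * c2) * X ^ 3 + C (2 * c1 * d0 - b1) * X := by
    rw [hl0]; simp only [C_sub, C_mul, map_ofNat]; ring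
  have e1 : l1 = C (A4 - c2 ^ 2) * X ^ 4 + C (2 * c2 * d0 - b2) * X ^ 2 + C (-(h + d0 ^ 2)) := by
    rw [hl1]; simp only [C_sub, C_mul, C_neg, C_add, C_pow, map_ofNat]; ring
  have hl00 : l0 ≠ 0 := by
    intro hz
    have h3 := congrArg (fun q => coeff q 3) e0
    rw [hz] at h3
    simp only [coeff_add, coeff_C_mul, coeff_X_pow, coeff_X, coeff_zero] at h3
    norm_num at h3
    exact hm3 h3.symm
  refine hasCurve_of F hF (ζ • (fun i => C (p i)) + (-(l0 * l1)) • (fun i => C (v i))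
    + (l0 ^ 2 * X) • (fun i => C (b i))) _ (core2 F (fun i => C (p i)) (fun i => C (v i))
    (fun i => C (b i)) (C w) X (C c1) (C c2) (C A3) (C A4) (C d0) (C b1) (C b2) (C h) l0 l1 ζ
    ?_ ?_ ?_ ?_ ?_ ?_ ?_ ?_ ?_ ?_ ?_ ?_ ?_ ?_ ?_ hl0 hl1 hζ) ?_
  · rw [ΦC, q0, C_pow]
  · rw [ΦC, q1, C_0]
  · rw [ΦC, q2, C_0]
  · rw [ΦC, q3, C_0]
  · rw [ΦC, q4, C_0]
  · rw [ΦC, q5, C_0]
  · rw [ΦC, q6, C_0]
  · have := congrArg (C : k → k[X]) r1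
    simpa only [ΦC, C_mul, C_add, C_pow, map_ofNat] using this
  · have := congrArg (C : k → k[X]) r2
    simpa only [ΦC, C_mul, C_add, C_pow, map_ofNat] using this
  · have := congrArg (C : k → k[X]) r3
    simpa only [ΦC, C_mul, C_add, C_pow, map_ofNat] using this
  · have := congrArg (C : k → k[X]) r4
    simpa only [ΦC, C_mul, C_add, C_pow, map_ofNat] using this
  · have := congrArg (C : k → k[X]) r5
    simpa only [ΦC, C_mul, C_add, C_pow, map_ofNat] using this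
  · have := congrArg (C : k → k[X]) r6
    simpa only [ΦC, C_mul, C_add, C_pow, map_ofNat] using this
  · have := congrArg (C : k → k[X]) r7
    simpa only [ΦC, C_mul, C_add, C_pow, map_ofNat] using this
  · have := congrArg (C : k → k[X]) r8
    simpa only [ΦC, C_mul, C_add, C_pow, map_ofNat] using this
  · intro hpar
    have hder : ∀ i, derivative ((ζ • (fun i => C (p i)) + (-(l0 * l1)) • (fun i => C (v i))
        + (l0 ^ 2 * X) • (fun i => C (b i)) : Fin 3 → k[X]) i) =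
        (derivative ζ • (fun i => C (p i)) + derivative (-(l0 * l1)) • (fun i => C (v i))
        + derivative (l0 ^ 2 * X) • (fun i => C (b i)) : Fin 3 → k[X]) i := by
      intro i
      simp only [Pi.add_apply, Pi.smul_apply, smul_eq_mul]
      rw [derivative_add, derivative_add, derivative_mul, derivative_mul (g := C (v i)),
        derivative_mul (g := C (b i)), derivative_C, derivative_C, derivative_C]
      ring
    simp only [hder] at hpar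
    have hdC : dt (fun i => (C (p i) : k[X])) (fun i => C (v i)) (fun i => C (b i)) ≠ 0 := by
      have : dt (fun i => (C (p i) : k[X])) (fun i => C (v i)) (fun i => C (b i))
          = C (dt p v b) := by simp [dt]
      rw [this]; simpa using hd
    obtain ⟨q1, -, -⟩ := par_basis hdC hpar
    have dμ : derivative (-(l0 * l1)) = - (derivative l0 * l1 + l0 * derivative l1) := by
      rw [derivative_neg, derivative_mul]
    have dν : derivative (l0 ^ 2 * X) = 2 * l0 * derivative l0 * X + l0 ^ 2 := by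
      rw [derivative_mul, pow_two, derivative_mul, derivative_X]; ring
    rw [dμ, dν] at q1
    have h4 : l0 * derivative l1 * X - l1 * derivative l0 * X - l0 * l1 = 0 := by
      apply mul_left_cancel₀ (pow_ne_zero 2 hl00)
      linear_combination q1
    have h5 := wronsk _ _ _ _ _ l0 l1 e0 e1 h4
    rcases mul_eq_zero.mp h5 with h6 | h6
    · rcases mul_eq_zero.mp h6 with h7 | h7
      · exact absurd h7 (by norm_num)
      · exact hm3 h7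
    · exact hn3 (neg_eq_zero.mp h6)

end Pool.Agent.Work.MP_d5a5f5_ag.DP
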