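import Pool.Agent.Work.MP_d5a5f5_ag.DP.CaseI

/-!
Points of the branch curve.
-/

namespace Pool.Agent.Work.MP_d5a5f5_ag.DP

set_option linter.unusedSimpArgs false

open Polynomial

variable {k : Type*} [Field k]

/-- the family of curves, as an identity -/
theorem core3 {A : Type*} [CommRing A] (a e f g h i j l m ρ γ : A)
    (hγ : a ^ 2 * γ = ρ ^ 2 + e * a - h) (F3 F4 F5 F6 W2 L0 L1 n x y z : A)
    (hF3 : F3 = i - a * f) (hF4 : F4 = -2 * a * γ ^ 2 + e * γ - a * g + j) (hF5 : F5 = f * γ + l)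
    (hF6 : F6 = γ ^ 3 + g * γ + m) (hW2 : W2 = 4 * ρ ^ 2 * F4 - F3 ^ 2)
    (hL0 : L0 = 8 * ρ ^ 4 * F5 - F3 * W2) (hL1 : L1 = 64 * ρ ^ 6 * F6 - W2 ^ 2)
    (hn : n = 8 * ρ ^ 2 * L0) (hx : x = - n * L1) (hy : y = n ^ 2)
    (hz : z = γ * n ^ 2 - a * L1 ^ 2) :
    y * z ^ 3 + a * x ^ 2 * z ^ 2 + z * (e * x ^ 2 * y + f * x * y ^ 2 + g * y ^ 3) + h * x ^ 4
      + i * x ^ 3 * y + j * x ^ 2 * y ^ 2 + l * x * y ^ 3 + m * y ^ 4 =
      (n ^ 2 * ρ * (L1 ^ 2 - 4 * F3 * L0 * L1 + 8 * W2 * L0 ^ 2)) ^ 2 := by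
  have e1 : y * z ^ 3 + a * x ^ 2 * z ^ 2 + z * (e * x ^ 2 * y + f * x * y ^ 2 + g * y ^ 3)
      + h * x ^ 4 + i * x ^ 3 * y + j * x ^ 2 * y ^ 2 + l * x * y ^ 3 + m * y ^ 4 =
      n ^ 4 * (ρ ^ 2 * L1 ^ 4 - F3 * n * L1 ^ 3 + F4 * n ^ 2 * L1 ^ 2 - F5 * n ^ 3 * L1
        + F6 * n ^ 4) := by
    rw [hx, hy, hz, hF3, hF4, hF5, hF6]
    linear_combination n ^ 4 * L1 ^ 4 * hγ
  rw [e1]
  have e2 : ρ ^ 2 * L1 ^ 4 - F3 * n * L1 ^ 3 + F4 * n ^ 2 * L1 ^ 2 - F5 * n ^ 3 * L1 + F6 * n ^ 4 =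
      (ρ * (L1 ^ 2 - 4 * F3 * L0 * L1 + 8 * W2 * L0 ^ 2)) ^ 2 := by
    rw [hn]
    linear_combination (-16) * ρ ^ 2 * L0 ^ 2 * L1 ^ 2 * hW2 + 64 * ρ ^ 2 * L0 ^ 3 * L1 * hL0
      - 64 * ρ ^ 2 * L0 ^ 4 * hL1
  rw [e2]; ring

theorem fin3 [CharZero k] (F : Quartic k) (hF : F.Sm) (p e1 e2 : Fin 3 → k)
    (h1 : F.Φ p p p p = 0) (h2 : F.Φ p p p e1 = 0) (h3 : 4 * F.Φ p p p e2 = 1)
    (h4 : F.Φ p p e1 e2 = 0) (h5 : F.Φ p p e2 e2 = 0) (h6 : F.Φ p e1 e1 e1 = 0)
    (hd : dt p e1 e2 ≠ 0) (γ L1 n W x y z : k[X]) (hx : x = - n * L1) (hy : y = n ^ 2)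
    (hz : z = γ * n ^ 2 - C (6 * F.Φ p p e1 e1) * L1 ^ 2) (hn0 : n ≠ 0) (hγ' : derivative γ ≠ 0)
    (hcore : y * z ^ 3 + C (6 * F.Φ p p e1 e1) * x ^ 2 * z ^ 2
      + z * (C (12 * F.Φ p e1 e1 e2) * x ^ 2 * y + C (12 * F.Φ p e1 e2 e2) * x * y ^ 2
        + C (4 * F.Φ p e2 e2 e2) * y ^ 3)
      + C (F.Φ e1 e1 e1 e1) * x ^ 4 + C (4 * F.Φ e1 e1 e1 e2) * x ^ 3 * y
      + C (6 * F.Φ e1 e1 e2 e2) * x ^ 2 * y ^ 2 + C (4 * F.Φ e1 e2 e2 e2) * x * y ^ 3
      + C (F.Φ e2 e2 e2 e2) * y ^ 4 = W ^ 2) : HasCurve F := by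
  refine hasCurve_of F hF (z • (fun i => C (p i)) + x • (fun i => C (e1 i))
    + y • (fun i => C (e2 i))) W ?_ ?_
  · rw [← hcore, Φ_basis3]
    simp only [ΦC, h1, h2, h4, h5, h6]
    have e3 : (4 : k[X]) * C (F.Φ p p p e2) = 1 := by
      have : (4 : k[X]) = C 4 := (map_ofNat C 4).symm
      rw [this, ← C_mul, h3, C_1]
    simp only [C_0, C_mul, map_ofNat]
    linear_combination z ^ 3 * y * e3
  · intro hpar
    have hder : ∀ i, derivative ((z • (fun i => C (p i)) + x • (fun i => C (e1 i))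
        + y • (fun i => C (e2 i)) : Fin 3 → k[X]) i) = (derivative z • (fun i => C (p i))
        + derivative x • (fun i => C (e1 i)) + derivative y • (fun i => C (e2 i)) :
        Fin 3 → k[X]) i := by
      intro i
      simp only [Pi.add_apply, Pi.smul_apply, smul_eq_mul, derivative_add, derivative_mul,
        derivative_C, mul_zero, add_zero]
    simp only [hder] at hpar
    have hdC : dt (fun i => (C (p i) : k[X])) (fun i => C (e1 i)) (fun i => C (e2 i)) ≠ 0 := by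
      have : dt (fun i => (C (p i) : k[X])) (fun i => C (e1 i)) (fun i => C (e2 i))
          = C (dt p e1 e2) := by simp [dt]
      rw [this]; simpa using hd
    obtain ⟨q1, q2, q3⟩ := par_basis hdC hpar
    have dx : derivative x = - derivative n * L1 - n * derivative L1 := by
      rw [hx]; simp only [derivative_mul, derivative_neg]; ring
    have dy : derivative y = 2 * n * derivative n := by
      rw [hy, pow_two, derivative_mul]; ring
    have dz : derivative z = derivative γ * n ^ 2 + γ * (2 * n * derivative n)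
        - C (6 * F.Φ p p e1 e1) * (2 * L1 * derivative L1) := by
      rw [hz, derivative_sub, derivative_mul, derivative_C_mul, pow_two, derivative_mul, pow_two,
        derivative_mul]; ring
    have r1 : n * derivative L1 = L1 * derivative n := by
      apply mul_left_cancel₀ (pow_ne_zero 2 hn0)
      rw [dx, dy, hx, hy] at q1
      linear_combination q1
    have r2 : derivative γ * n ^ 4 = 0 := by
      rw [dz, dy, hz, hy] at q3
      linear_combination -q3 + 2 * C (6 * F.Φ p p e1 e1) * n * L1 * r1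
    exact mul_ne_zero hγ' (pow_ne_zero 4 hn0) r2

theorem caseIII_core [CharZero k] (F : Quartic k) (hF : F.Sm) (p e1 e2 : Fin 3 → k)
    (h1 : F.Φ p p p p = 0) (h2 : F.Φ p p p e1 = 0) (h3 : 4 * F.Φ p p p e2 = 1)
    (h4 : F.Φ p p e1 e2 = 0) (h5 : F.Φ p p e2 e2 = 0) (h6 : F.Φ p e1 e1 e1 = 0)
    (ha : F.Φ p p e1 e1 ≠ 0) (hd : dt p e1 e2 ≠ 0)
    (hne : ¬ (F.Φ p e1 e2 e2 = 0 ∧ F.Φ e1 e1 e1 e2 = 0 ∧ F.Φ e1 e2 e2 e2 = 0)) :
    HasCurve F := by
  set a : k := 6 * F.Φ p p e1 e1 with hadef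
  set e : k := 12 * F.Φ p e1 e1 e2 with hedef
  set f : k := 12 * F.Φ p e1 e2 e2 with hfdef
  set g : k := 4 * F.Φ p e2 e2 e2 with hgdef
  set h : k := F.Φ e1 e1 e1 e1 with hhdef
  set i : k := 4 * F.Φ e1 e1 e1 e2 with hidef
  set j : k := 6 * F.Φ e1 e1 e2 e2 with hjdef
  set l : k := 4 * F.Φ e1 e2 e2 e2 with hldef
  set m : k := F.Φ e2 e2 e2 e2 with hmdef
  have ha0 : a ≠ 0 := mul_ne_zero (by norm_num) ha
  have hne' : ¬ (f = 0 ∧ i = 0 ∧ l = 0) := by
    rintro ⟨q1, q2, q3⟩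
    apply hne
    refine ⟨?_, ?_, ?_⟩
    · exact (mul_eq_zero.mp q1).resolve_left (by norm_num)
    · exact (mul_eq_zero.mp q2).resolve_left (by norm_num)
    · exact (mul_eq_zero.mp q3).resolve_left (by norm_num)
  let γ : k[X] := C (1 / a ^ 2) * (X ^ 2 + C (e * a - h))
  have hγ : (C a) ^ 2 * γ = X ^ 2 + C e * C a - C h := by
    have : (C a : k[X]) ^ 2 * C (1 / a ^ 2) = 1 := by
      rw [← C_pow, ← C_mul, mul_one_div_cancel (pow_ne_zero 2 ha0), C_1]
    simp only [γ]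
    rw [← mul_assoc, this, one_mul, C_sub, C_mul]; ring
  have hγ' : derivative γ = C (2 / a ^ 2) * X := by
    simp only [γ, derivative_C_mul, derivative_add, derivative_X_pow, derivative_C, add_zero]
    have : (C (2 / a ^ 2) : k[X]) = C (1 / a ^ 2) * C 2 := by rw [← C_mul]; congr 1; ring
    rw [this]; simp; ring
  let F3 : k[X] := C i - C a * C f
  let F4 : k[X] := -2 * C a * γ ^ 2 + C e * γ - C a * C g + C j
  let F5 : k[X] := C f * γ + C l
  let F6 : k[X] := γ ^ 3 + C g * γ + C m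
  let W2 : k[X] := 4 * X ^ 2 * F4 - F3 ^ 2
  let L0 : k[X] := 8 * X ^ 4 * F5 - F3 * W2
  let L1 : k[X] := 64 * X ^ 6 * F6 - W2 ^ 2
  let n : k[X] := 8 * X ^ 2 * L0
  let x : k[X] := - n * L1
  let y : k[X] := n ^ 2
  let z : k[X] := γ * n ^ 2 - C a * L1 ^ 2
  have hcore := core3 (C a) (C e) (C f) (C g) (C h) (C i) (C j) (C l) (C m) X γ hγ F3 F4 F5 F6
    W2 L0 L1 n x y z rfl rfl rfl rfl rfl rfl rfl rfl rfl rfl rfl
  have hL0 : L0 ≠ 0 := by
    intro h0
    have e0 : F3 = 0 := by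
      have h1 := congrArg (eval 0) h0
      simp only [L0, W2, F3, eval_sub, eval_mul, eval_pow, eval_X, eval_C, eval_zero] at h1
      have h2 : (i - a * f) ^ 3 = 0 := by
        rw [← h1]; ring
      have h3 := pow_eq_zero_iff (three_ne_zero) |>.mp h2
      simp only [F3]
      rw [← C_mul, ← C_sub, h3, C_0]
    have e1 : F5 = 0 := by
      have h1 : (8 * X ^ 4 : k[X]) * F5 = 0 := by
        rw [← h0]; simp only [L0]; rw [e0]; ring
      refine (mul_eq_zero.mp h1).resolve_left ?_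
      have : (8 : k[X]) = C 8 := (map_ofNat C 8).symm
      rw [this]
      exact mul_ne_zero (by simp) (pow_ne_zero 4 X_ne_zero)
    have ef : f = 0 := by
      have h1 := congrArg (fun q => coeff q 2) e1
      simp only [F5, γ] at h1
      rw [← mul_assoc, ← C_mul, coeff_add, coeff_C_mul] at h1
      simp [coeff_X_pow] at h1
      rcases h1 with h1 | h1
      · exact h1
      · exact absurd h1 ha0
    have el : l = 0 := by
      simp only [F5] at e1
      rw [ef] at e1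
      simpa using e1
    have ei : i = 0 := by
      simp only [F3] at e0
      rw [ef] at e0
      simpa using e0
    exact hne' ⟨ef, ei, el⟩
  have hn0 : n ≠ 0 := by
    simp only [n]
    have : (8 : k[X]) = C 8 := (map_ofNat C 8).symm
    rw [this]
    exact mul_ne_zero (mul_ne_zero (by simp) (pow_ne_zero 2 X_ne_zero)) hL0
  refine fin3 F hF p e1 e2 h1 h2 h3 h4 h5 h6 hd γ L1 n
    (n ^ 2 * X * (L1 ^ 2 - 4 * F3 * L0 * L1 + 8 * W2 * L0 ^ 2)) x y z rfl rfl rfl hn0 ?_ hcore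
  rw [hγ']
  exact mul_ne_zero (by simpa using ha0) X_ne_zero

theorem exists_e2 (F : Quartic k) [CharZero k] (hF : F.Sm) (p : Fin 3 → k) (hp : p ≠ 0) :
    ∃ e, 4 * F.Φ p p p e = 1 := by
  by_contra hcon
  push Not at hcon
  apply hp
  have h1 : ∀ i, F.Φ p p p (Pi.single i 1) = 0 := by
    intro i
    by_contra hi
    apply hcon ((1 / (4 * F.Φ p p p (Pi.single i 1))) • Pi.single i 1)
    rw [Φ_smul4]
    field_simp
  have h2 := hF (fun i => algebraMap k (AlgebraicClosure k) (p i)) (by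
    intro i
    have h3 := Φ_map F p p p (Pi.single i 1) (Algebra.ofId k (AlgebraicClosure k))
    rw [h1, map_zero] at h3
    have h4 : (fun j => (Algebra.ofId k (AlgebraicClosure k))
        ((Pi.single i (1 : k) : Fin 3 → k) j)) = Pi.single i 1 := by
      ext j; simp only [Pi.single_apply]; split_ifs <;> simp
    rw [h4] at h3
    exact h3.symm)
  ext i
  have := congrFun h2 i
  simpa using this

theorem smul_of_dt (p v : Fin 3 → k) (hp : p ≠ 0) (h : ∀ u, dt p v u = 0) :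
    ∃ c : k, v = c • p := by
  have e0 := h (Pi.single 0 1)
  have e1 := h (Pi.single 1 1)
  have e2 := h (Pi.single 2 1)
  simp [dt] at e0 e1 e2
  obtain ⟨i, hi⟩ := Function.ne_iff.mp hp
  simp only [Pi.zero_apply] at hi
  refine ⟨v i / p i, ?_⟩
  ext j
  simp only [Pi.smul_apply, smul_eq_mul]
  field_simp
  fin_cases i <;> fin_cases j <;> simp <;>
    first
    | ring1
    | linear_combination e0
    | linear_combination e1
    | linear_combination e2
    | linear_combination -e0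
    | linear_combination -e1
    | linear_combination -e2

theorem indep [CharZero k] (F : Quartic k) (p v e : Fin 3 → k) (hp : p ≠ 0)
    (h0 : F.Φ p p p p = 0) (hv : F.Φ p p p v = 0) (he : 4 * F.Φ p p p e = 1)
    (hc : ∀ c : k, v ≠ c • p) : dt p v e ≠ 0 := by
  intro hd
  obtain ⟨c, hc'⟩ := smul_of_dt p v hp (by
    intro u
    have h1 := Φ_cramer F p p v e u
    rw [hd, h0, hv] at h1
    linear_combination (-4) * h1 - dt p v u * he)
  exact hc c hc'

theorem caseIII_nonflex [CharZero k] (F : Quartic k) (hF : F.Sm) (p v : Fin 3 → k) (hp : p ≠ 0)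
    (h0 : F.Φ p p p p = 0) (hv : F.Φ p p p v = 0) (ha : F.Φ p p v v ≠ 0)
    (hinv : ∀ τ : (Fin 3 → k) →ₗ[k] (Fin 3 → k), (∀ x, τ (τ x) = x) → τ p = p →
      (∀ x, F.Φ (τ x) (τ x) (τ x) (τ x) = F.Φ x x x x) → ∀ x, τ x = x) : HasCurve F := by
  obtain ⟨e, he⟩ := exists_e2 F hF p hp
  have hd := indep F p v e hp h0 hv he (by
    rintro c rfl
    apply ha
    rw [Φ_smul3, Φ_smul4, h0]; ring)
  obtain ⟨α, hα⟩ : ∃ α, α * (3 * F.Φ p p v v) = - F.Φ p v v v :=
    ⟨- F.Φ p v v v / (3 * F.Φ p p v v), by field_simp⟩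
  set e1 : Fin 3 → k := v + α • p with he1
  have a1 : F.Φ p p p e1 = 0 := by
    rw [he1, Φ_add4, Φ_smul4, h0, hv]; ring
  have a2 : F.Φ p p e1 e1 = F.Φ p p v v := by
    rw [he1]
    simp only [Φ_add1, Φ_add2, Φ_add3, Φ_add4, Φ_sub1, Φ_sub2,
      Φ_sub3, Φ_sub4, Φ_smul1, Φ_smul2, Φ_smul3, Φ_smul4]
    rw [Φ_s34 F p p v p, h0, hv]; ring
  have a3 : F.Φ p e1 e1 e1 = 0 := by
    rw [he1]
    simp only [Φ_add1, Φ_add2, Φ_add3, Φ_add4, Φ_sub1, Φ_sub2,
      Φ_sub3, Φ_sub4, Φ_smul1, Φ_smul2, Φ_smul3, Φ_smul4]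
    simp only [Φ_s34 F _ _ v p, Φ_s23 F _ v p, h0, hv]
    linear_combination hα
  have hd1 : dt p e1 e = dt p v e := by
    rw [he1]; simp only [dt, Pi.add_apply, Pi.smul_apply, smul_eq_mul]; ring
  obtain ⟨μ, hμ⟩ : ∃ μ, μ * F.Φ p p e1 e1 = - F.Φ p p e1 e :=
    ⟨- F.Φ p p e1 e / F.Φ p p e1 e1, by rw [div_mul_cancel₀]; rw [a2]; exact ha⟩
  set e' : Fin 3 → k := e + μ • e1 with he'
  set e2 : Fin 3 → k := e' + (-2 * F.Φ p p e' e') • p with he2
  have b0 : 4 * F.Φ p p p e' = 1 := by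
    rw [he', Φ_add4, Φ_smul4, a1]; linear_combination he
  have b1 : 4 * F.Φ p p p e2 = 1 := by
    rw [he2, Φ_add4, Φ_smul4, h0]; linear_combination b0
  have b2 : F.Φ p p e1 e2 = 0 := by
    rw [he2, Φ_add4, Φ_smul4, Φ_s34 F p p e1 p, a1, he', Φ_add4, Φ_smul4]
    linear_combination hμ
  have b3 : F.Φ p p e2 e2 = 0 := by
    rw [he2]
    generalize hβ : F.Φ p p e' e' = β
    simp only [Φ_add1, Φ_add2, Φ_add3, Φ_add4, Φ_sub1, Φ_sub2,
      Φ_sub3, Φ_sub4, Φ_smul1, Φ_smul2, Φ_smul3, Φ_smul4]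
    rw [Φ_s34 F p p e' p, h0, hβ]
    linear_combination (-β) * b0
  have hd2 : dt p e1 e2 = dt p v e := by
    rw [← hd1, he2, he']; simp only [dt, Pi.add_apply, Pi.smul_apply, smul_eq_mul]; ring
  by_cases hne : F.Φ p e1 e2 e2 = 0 ∧ F.Φ e1 e1 e1 e2 = 0 ∧ F.Φ e1 e2 e2 e2 = 0
  · exfalso
    obtain ⟨c1, c2, c3⟩ := hne
    have hD : dt p e1 e2 ≠ 0 := by rw [hd2]; exact hd
    set D := dt p e1 e2 with hDdef
    let φ : (Fin 3 → k) → k := fun x => dt p x e2 / D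
    have hφadd : ∀ x y, φ (x + y) = φ x + φ y := by
      intro x y; simp only [φ, dt, Pi.add_apply]; ring
    have hφsmul : ∀ (c : k) x, φ (c • x) = c * φ x := by
      intro c x; simp only [φ, dt, Pi.smul_apply, smul_eq_mul]; ring
    have hφ1 : φ e1 = 1 := by simp only [φ]; rw [← hDdef, div_self hD]
    have hφp : φ p = 0 := by
      have : dt p p e2 = 0 := by simp only [dt]; ring
      simp only [φ, this, zero_div]
    let τ : (Fin 3 → k) →ₗ[k] (Fin 3 → k) :=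
      { toFun := fun x => x - (2 * φ x) • e1
        map_add' := by intro x y; rw [hφadd]; module
        map_smul' := by intro c x; rw [hφsmul]; simp only [RingHom.id_apply]; module }
    have hτ : ∀ x, τ x = x - (2 * φ x) • e1 := fun x => rfl
    have hττ : ∀ x, τ (τ x) = x := by
      intro x
      rw [hτ, hτ]
      have : φ (x - (2 * φ x) • e1) = - φ x := by
        rw [sub_eq_add_neg, ← neg_smul, hφadd, hφsmul, hφ1]; ring
      rw [this]; module
    have hQ : ∀ x, F.Φ (τ x) (τ x) (τ x) (τ x) = F.Φ x x x x := by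
      intro x
      have hx : x = (dt x e1 e2 / D) • p + (φ x) • e1 + (dt p e1 x / D) • e2 := by
        ext i
        simp only [Pi.add_apply, Pi.smul_apply, smul_eq_mul, φ]
        field_simp
        rw [hDdef]
        simp only [dt]
        fin_cases i <;> simp <;> ring
      have hx2 : τ x = (dt x e1 e2 / D) • p + (- φ x) • e1 + (dt p e1 x / D) • e2 := by
        rw [hτ]
        nth_rw 1 [hx]
        module
      rw [hx2]
      conv_rhs => rw [hx]
      rw [Φ_basis3, Φ_basis3, a1, a3, b2, c1, c2, c3]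
      ring
    have hp' : τ p = p := by rw [hτ, hφp]; simp
    have h5 := hinv τ hττ hp' hQ e1
    rw [hτ, hφ1] at h5
    have h6 : e1 = 0 := by
      have h7 : (-2 : k) • e1 = 0 := by
        have : (-2 : k) • e1 = (e1 - (2 * 1 : k) • e1) - e1 := by module
        rw [this, h5, sub_self]
      exact (smul_eq_zero.mp h7).resolve_left (by norm_num)
    apply hD
    rw [hDdef, h6]
    simp [dt]
  · exact caseIII_core F hF p e1 e2 h0 a1 b1 b2 b3 a3 (by rw [a2]; exact ha)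
      (by rw [hd2]; exact hd) hne

end Pool.Agent.Work.MP_d5a5f5_ag.DP
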