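import Pool.Agent.Work.MP_d5a5f5_ag.DP.CaseII

/-!
Generalised Eckardt points: existence of a good pair of vectors.
-/

namespace Pool.Agent.Work.MP_d5a5f5_ag.DP

set_option linter.unusedSimpArgs false

open Polynomial

variable {k : Type*} [Field k]

/-- a double root of the binary quartic gives a singular point -/
theorem sing [CharZero k] (F : Quartic k) (hF : F.Sm) (p y z : Fin 3 → AlgebraicClosure k)
    (w : AlgebraicClosure k) (hw0 : w ≠ 0)
    (q0 : F.Φ p p p p = w ^ 2) (q1 : F.Φ p p p y = 0) (q2 : F.Φ p p p z = 0)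
    (q3 : F.Φ p y y y = 0) (q4 : F.Φ p y y z = 0) (hd : dt p y z ≠ 0)
    (f1 : w ^ 2 * F.Φ y y y y = 9 * F.Φ p p y y ^ 2)
    (f2 : w ^ 2 * F.Φ y y y z = 9 * F.Φ p p y y * F.Φ p p y z) : False := by
  obtain ⟨t, ht⟩ := IsAlgClosed.exists_pow_nat_eq (-3 * F.Φ p p y y) (n := 2) (by norm_num)
  obtain ⟨Z, hZ⟩ : ∃ Z, w * Z = t := ⟨t / w, by field_simp⟩
  have hZ2 : w ^ 2 * Z ^ 2 = -3 * F.Φ p p y y := by rw [← ht, ← hZ]; ring
  have hw2 : w ^ 2 ≠ 0 := pow_ne_zero 2 hw0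
  set x := Z • p + y with hx
  have g1 : F.Φ x x x p = 0 := by
    rw [hx]
    simp only [Φ_add1, Φ_add2, Φ_add3, Φ_add4, Φ_sub1, Φ_sub2,
      Φ_sub3, Φ_sub4, Φ_smul1, Φ_smul2, Φ_smul3, Φ_smul4]
    simp only [Φ_s12 F y p, Φ_s23 F _ y p, Φ_s34 F _ _ y p, q0, q1, q3]
    linear_combination Z * hZ2
  have g2 : F.Φ x x x y = 0 := by
    apply mul_left_cancel₀ hw2
    rw [hx]
    simp only [Φ_add1, Φ_add2, Φ_add3, Φ_add4, Φ_sub1, Φ_sub2,
      Φ_sub3, Φ_sub4, Φ_smul1, Φ_smul2, Φ_smul3, Φ_smul4]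
    simp only [Φ_s12 F y p, Φ_s23 F _ y p, q1, q3]
    linear_combination 3 * F.Φ p p y y * hZ2 + f1
  have g3 : F.Φ x x x z = 0 := by
    apply mul_left_cancel₀ hw2
    rw [hx]
    simp only [Φ_add1, Φ_add2, Φ_add3, Φ_add4, Φ_sub1, Φ_sub2,
      Φ_sub3, Φ_sub4, Φ_smul1, Φ_smul2, Φ_smul3, Φ_smul4]
    simp only [Φ_s12 F y p, Φ_s23 F _ y p, q2, q4]
    linear_combination 3 * F.Φ p p y z * hZ2 + f2
  have h0 := hF x (by
    intro i
    have h1 := Φ_cramer F x p y z (Pi.single i 1)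
    rw [g1, g2, g3] at h1
    have h2 : dt p y z * F.Φ x x x (Pi.single i 1) = 0 := by rw [h1]; ring
    exact (mul_eq_zero.mp h2).resolve_left hd)
  apply hd
  have h1 : dt p y z = dt p x z := by
    rw [hx]; simp only [dt, Pi.add_apply, Pi.smul_apply, smul_eq_mul]; ring
  rw [h1, h0]
  simp [dt]

section
variable (F : Quartic k) {A : Type*} [CommRing A] [Algebra k A] (w : A) (p v b : Fin 3 → A)

def G0 : A := w ^ 2 * F.Φ v v v v - 9 * F.Φ p p v v ^ 2
def G1 : A := 4 * (w ^ 2 * F.Φ v v v b - 9 * F.Φ p p v v * F.Φ p p v b)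
def G2 : A := 6 * w ^ 2 * F.Φ v v b b - 18 * F.Φ p p v v * F.Φ p p b b - 36 * F.Φ p p v b ^ 2
def G3 : A := 4 * w ^ 2 * F.Φ v b b b - 36 * F.Φ p p v b * F.Φ p p b b
def G4 : A := w ^ 2 * F.Φ b b b b - 9 * F.Φ p p b b ^ 2
def GM : A := 8 * G0 F w p v ^ 2 * G3 F w p v b - 4 * G0 F w p v * G1 F w p v b * G2 F w p v b
  + G1 F w p v b ^ 3

variable {F w p v b}

theorem G0_der (δ : Derivation k A A) (hp : (fun i => δ (p i)) = 0) (hw : δ w = 0)
    (hv : (fun i => δ (v i)) = b) : δ (G0 F w p v) = G1 F w p v b := by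
  have hn : ∀ n : ℕ, δ (n : A) = 0 := δ.map_natCast
  have h9 : δ (9 : A) = 0 := hn 9
  unfold G0 G1
  simp only [map_sub, Derivation.leibniz, Derivation.leibniz_pow, Φ_der, hp, hw, hv,
    smul_eq_mul, h9, nsmul_eq_mul, Nat.cast_ofNat, Φ_zero1, Φ_zero2]
  simp only [Φ_s12 F b v, Φ_s23 F _ b v, Φ_s34 F _ _ b v]
  ring

theorem G1_der (δ : Derivation k A A) (hp : (fun i => δ (p i)) = 0) (hw : δ w = 0)
    (hv : (fun i => δ (v i)) = b) (hb : (fun i => δ (b i)) = 0) :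
    δ (G1 F w p v b) = 2 * G2 F w p v b := by
  have hn : ∀ n : ℕ, δ (n : A) = 0 := δ.map_natCast
  have h9 : δ (9 : A) = 0 := hn 9
  have h4 : δ (4 : A) = 0 := hn 4
  unfold G1 G2
  simp only [map_sub, Derivation.leibniz, Derivation.leibniz_pow, Φ_der, hp, hw, hv, hb,
    smul_eq_mul, h9, h4, nsmul_eq_mul, Nat.cast_ofNat, Φ_zero1, Φ_zero2, Φ_zero4]
  simp only [Φ_s12 F b v, Φ_s23 F _ b v, Φ_s34 F _ _ b v]
  ring

theorem G2_der (δ : Derivation k A A) (hp : (fun i => δ (p i)) = 0) (hw : δ w = 0)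
    (hv : (fun i => δ (v i)) = b) (hb : (fun i => δ (b i)) = 0) :
    δ (G2 F w p v b) = 3 * G3 F w p v b := by
  have hn : ∀ n : ℕ, δ (n : A) = 0 := δ.map_natCast
  have h6 : δ (6 : A) = 0 := hn 6
  have h18 : δ (18 : A) = 0 := hn 18
  have h36 : δ (36 : A) = 0 := hn 36
  unfold G2 G3
  simp only [map_sub, Derivation.leibniz, Derivation.leibniz_pow, Φ_der, hp, hw, hv, hb,
    smul_eq_mul, h6, h18, h36, nsmul_eq_mul, Nat.cast_ofNat, Φ_zero1, Φ_zero2, Φ_zero3, Φ_zero4]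
  simp only [Φ_s12 F b v, Φ_s34 F _ _ b v]
  ring

theorem G3_der (δ : Derivation k A A) (hp : (fun i => δ (p i)) = 0) (hw : δ w = 0)
    (hv : (fun i => δ (v i)) = b) (hb : (fun i => δ (b i)) = 0) :
    δ (G3 F w p v b) = 4 * G4 F w p b := by
  have hn : ∀ n : ℕ, δ (n : A) = 0 := δ.map_natCast
  have h4 : δ (4 : A) = 0 := hn 4
  have h36 : δ (36 : A) = 0 := hn 36
  unfold G3 G4
  simp only [map_sub, Derivation.leibniz, Derivation.leibniz_pow, Φ_der, hp, hw, hv, hb,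
    smul_eq_mul, h4, h36, nsmul_eq_mul, Nat.cast_ofNat, Φ_zero1, Φ_zero2, Φ_zero3, Φ_zero4]
  ring

section map
variable {B : Type*} [CommRing B] [Algebra k B] (f : A →ₐ[k] B)

theorem G0_map : f (G0 F w p v) = G0 F (f w) (fun i => f (p i)) (fun i => f (v i)) := by
  unfold G0
  simp only [map_sub, map_mul, map_pow, Φ_map, map_ofNat]

theorem G1_map : f (G1 F w p v b) =
    G1 F (f w) (fun i => f (p i)) (fun i => f (v i)) (fun i => f (b i)) := by
  unfold G1
  simp only [map_sub, map_mul, map_pow, Φ_map, map_ofNat]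

theorem G2_map : f (G2 F w p v b) =
    G2 F (f w) (fun i => f (p i)) (fun i => f (v i)) (fun i => f (b i)) := by
  unfold G2
  simp only [map_sub, map_mul, map_pow, Φ_map, map_ofNat]

theorem G3_map : f (G3 F w p v b) =
    G3 F (f w) (fun i => f (p i)) (fun i => f (v i)) (fun i => f (b i)) := by
  unfold G3
  simp only [map_sub, map_mul, map_pow, Φ_map, map_ofNat]

theorem G4_map : f (G4 F w p b) =
    G4 F (f w) (fun i => f (p i)) (fun i => f (b i)) := by
  unfold G4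
  simp only [map_sub, map_mul, map_pow, Φ_map, map_ofNat]

theorem GM_map : f (GM F w p v b) =
    GM F (f w) (fun i => f (p i)) (fun i => f (v i)) (fun i => f (b i)) := by
  unfold GM
  simp only [map_sub, map_add, map_mul, map_pow, map_ofNat, G0_map, G1_map, G2_map, G3_map]

end map
end

/-- the end of the argument -/
theorem caseII_end [CharZero k] (F : Quartic k) (hF : F.Sm) (p v b : Fin 3 → k)
    (w : k) (hw0 : w ≠ 0) (hd : dt p v b ≠ 0)
    (q0 : F.Φ p p p p = w ^ 2) (q1 : F.Φ p p p v = 0) (q2 : F.Φ p p p b = 0)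
    (q3 : F.Φ p v v v = 0) (q4 : F.Φ p v v b = 0) (q5 : F.Φ p v b b = 0) (q6 : F.Φ p b b b = 0)
    (hG : G0 F w p v ≠ 0) (hQ : F.Φ v v v v ≠ 0) (hM : GM F w p v b ≠ 0) : HasCurve F := by
  set g0 := G0 F w p v with hg0
  set g1 := G1 F w p v b with hg1
  set g2 := G2 F w p v b with hg2
  set g3 := G3 F w p v b with hg3
  set g4 := G4 F w p b with hg4
  have hm : 8 * g0 ^ 2 * g3 - 4 * g0 * g1 * g2 + g1 ^ 3 ≠ 0 := hM
  unfold G0 at hg0
  unfold G1 at hg1
  unfold G2 at hg2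
  unfold G3 at hg3
  unfold G4 at hg4
  refine caseII_core F hF p v b w (g1 / (2 * g0)) ((g2 / g0 - (g1 / (2 * g0)) ^ 2) / 2) (g3 / g0)
    (g4 / g0) (3 * F.Φ p p v v / (2 * w ^ 2)) (6 * F.Φ p p v b / w ^ 2) (3 * F.Φ p p b b / w ^ 2)
    (g0 / (4 * w ^ 4)) hd q0 q1 q2 q3 q4 q5 q6 ?_ ?_ ?_ ?_ ?_ ?_ ?_ ?_ ?_ ?_
  · field_simp
  · field_simp
  · field_simp
  · field_simp
    linear_combination (-4) * hg0
  · field_simp
    linear_combination (-8) * hg1
  · field_simp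
    linear_combination (-4 * g0) * hg2
  · field_simp
    linear_combination (-1) * hg3
  · field_simp
    linear_combination (-1) * hg4
  · intro h0
    apply hm
    field_simp at h0
    linear_combination h0
  · intro h0
    apply hQ
    have h1 : w ^ 2 * F.Φ v v v v = 0 := by
      field_simp at h0
      linear_combination (1 / 4) * h0 - hg0
    exact (mul_eq_zero.mp h1).resolve_left (pow_ne_zero 2 hw0)

theorem kernel_basis (F : Quartic k) (p : Fin 3 → k) (w : k) (hw0 : w ≠ 0)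
    (q0 : F.Φ p p p p = w ^ 2) :
    ∃ a b, F.Φ p p p a = 0 ∧ F.Φ p p p b = 0 ∧ dt p a b ≠ 0 := by
  set l : Fin 3 → k := fun i => F.Φ p p p (Pi.single i 1) with hl
  have hΦ : ∀ y, F.Φ p p p y = y 0 * l 0 + y 1 * l 1 + y 2 * l 2 := by
    intro y; rw [Φ_basis, Fin.sum_univ_three]
  have hpl : p 0 * l 0 + p 1 * l 1 + p 2 * l 2 ≠ 0 := by
    rw [← hΦ, q0]; exact pow_ne_zero 2 hw0
  have hl0 : l 0 ≠ 0 ∨ l 1 ≠ 0 ∨ l 2 ≠ 0 := by
    by_contra hcon
    push Not at hcon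
    obtain ⟨h0, h1, h2⟩ := hcon
    apply hpl
    rw [h0, h1, h2]; ring
  rcases hl0 with h | h | h
  · refine ⟨![- l 1, l 0, 0], ![- l 2, 0, l 0], ?_, ?_, ?_⟩
    · rw [hΦ]; simp; ring
    · rw [hΦ]; simp; ring
    · have : dt p ![- l 1, l 0, 0] ![- l 2, 0, l 0] =
          l 0 * (p 0 * l 0 + p 1 * l 1 + p 2 * l 2) := by simp [dt]; ring
      rw [this]; exact mul_ne_zero h hpl
  · refine ⟨![l 1, - l 0, 0], ![0, - l 2, l 1], ?_, ?_, ?_⟩
    · rw [hΦ]; simp; ring
    · rw [hΦ]; simp; ring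
    · have : dt p ![l 1, - l 0, 0] ![0, - l 2, l 1] =
          - l 1 * (p 0 * l 0 + p 1 * l 1 + p 2 * l 2) := by simp [dt]; ring
      rw [this]; exact mul_ne_zero (neg_ne_zero.mpr h) hpl
  · refine ⟨![l 2, 0, - l 0], ![0, l 2, - l 1], ?_, ?_, ?_⟩
    · rw [hΦ]; simp; ring
    · rw [hΦ]; simp; ring
    · have : dt p ![l 2, 0, - l 0] ![0, l 2, - l 1] =
          l 2 * (p 0 * l 0 + p 1 * l 1 + p 2 * l 2) := by simp [dt]; ring
      rw [this]; exact mul_ne_zero h hpl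

theorem caseII [CharZero k] (F : Quartic k) (hF : F.Sm) (p : Fin 3 → k) (w : k) (hw0 : w ≠ 0)
    (q0 : F.Φ p p p p = w ^ 2) (hc : ∀ a, ct F w p a = 0) : HasCurve F := by
  obtain ⟨a, b, ha, hb, hd⟩ := kernel_basis F p w hw0 q0
  have hcub : ∀ y, F.Φ p p p y = 0 → F.Φ p y y y = 0 := by
    intro y hy
    have h1 := hc y
    unfold ct at h1
    rw [hy, zero_mul, sub_zero] at h1
    exact (mul_eq_zero.mp h1).resolve_left (pow_ne_zero 4 hw0)
  have haaa := hcub a ha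
  have hbbb := hcub b hb
  have h1 := hcub (a + b) (by rw [Φ_add4, ha, hb, add_zero])
  have h2 := hcub (a - b) (by rw [Φ_sub4, ha, hb, sub_zero])
  have e1 : 3 * F.Φ p a a b + 3 * F.Φ p a b b = 0 := by
    rw [← h1]
    simp only [Φ_add1, Φ_add2, Φ_add3, Φ_add4, Φ_sub1, Φ_sub2,
      Φ_sub3, Φ_sub4, Φ_smul1, Φ_smul2, Φ_smul3, Φ_smul4]
    simp only [Φ_s23 F _ b a, Φ_s34 F _ _ b a, haaa, hbbb]
    ring
  have e2 : -3 * F.Φ p a a b + 3 * F.Φ p a b b = 0 := by
    rw [← h2]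
    simp only [Φ_add1, Φ_add2, Φ_add3, Φ_add4, Φ_sub1, Φ_sub2,
      Φ_sub3, Φ_sub4, Φ_smul1, Φ_smul2, Φ_smul3, Φ_smul4]
    simp only [Φ_s23 F _ b a, Φ_s34 F _ _ b a, haaa, hbbb]
    ring
  have haab : F.Φ p a a b = 0 := by linear_combination (1 / 6) * e1 - (1 / 6) * e2
  have habb : F.Φ p a b b = 0 := by linear_combination (1 / 6) * e1 + (1 / 6) * e2
  let K := AlgebraicClosure k
  let ι : k →ₐ[k] K := Algebra.ofId k K
  let p' : Fin 3 → K := fun i => ι (p i)
  let a' : Fin 3 → K := fun i => ι (a i)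
  let b' : Fin 3 → K := fun i => ι (b i)
  have hι : ∀ x : k, ι x = 0 ↔ x = 0 := fun x => map_eq_zero ι
  have hw' : ι w ≠ 0 := fun h => hw0 ((hι w).mp h)
  have k0 : F.Φ p' p' p' p' = ι w ^ 2 := by rw [← map_pow, ← q0, Φ_map]
  have ka : F.Φ p' p' p' a' = 0 := by rw [← map_zero ι, ← ha, Φ_map]
  have kb : F.Φ p' p' p' b' = 0 := by rw [← map_zero ι, ← hb, Φ_map]
  have kaaa : F.Φ p' a' a' a' = 0 := by rw [← map_zero ι, ← haaa, Φ_map]
  have kaab : F.Φ p' a' a' b' = 0 := by rw [← map_zero ι, ← haab, Φ_map]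
  have kabb : F.Φ p' a' b' b' = 0 := by rw [← map_zero ι, ← habb, Φ_map]
  have kbbb : F.Φ p' b' b' b' = 0 := by rw [← map_zero ι, ← hbbb, Φ_map]
  have kd : dt p' a' b' ≠ 0 := by
    have : dt p' a' b' = ι (dt p a b) := by simp [dt, p', a', b']
    rw [this]; exact fun h => hd ((hι _).mp h)
  -- the moving vector
  let v : Fin 3 → k[X] := fun i => C (a i) + X * C (b i)
  let pC : Fin 3 → k[X] := fun i => C (p i)
  let bC : Fin 3 → k[X] := fun i => C (b i)
  let δ : Derivation k k[X] k[X] := derivative' (R := k)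
  have dp : (fun i => δ (pC i)) = 0 := by ext1 i; exact derivative_C
  have dw : δ (C w) = 0 := derivative_C
  have db : (fun i => δ (bC i)) = 0 := by ext1 i; exact derivative_C
  have dv : (fun i => δ (v i)) = bC := by
    ext1 i
    change derivative (C (a i) + X * C (b i)) = C (b i)
    simp
  have D0 := G0_der (F := F) δ dp dw dv
  have D1 := G1_der (F := F) δ dp dw dv db
  have D2 := G2_der (F := F) δ dp dw dv db
  have D3 := G3_der (F := F) δ dp dw dv db
  -- no common root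
  have hroot : ∀ r : K, ¬ (aeval r (G0 F (C w) pC v) = 0 ∧ aeval r (G1 F (C w) pC v bC) = 0) := by
    rintro r ⟨hr0, hr1⟩
    let f : k[X] →ₐ[k] K := aeval r
    change f _ = 0 at hr0
    change f _ = 0 at hr1
    rw [G0_map] at hr0
    rw [G1_map] at hr1
    have f0 : f (C w) = ι w := by simp [f, ι, Algebra.ofId_apply]
    have f1 : (fun i => f (pC i)) = p' := by ext1 i; simp [f, ι, pC, p', Algebra.ofId_apply]
    have f2 : (fun i => f (bC i)) = b' := by ext1 i; simp [f, ι, bC, b', Algebra.ofId_apply]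
    have f3 : (fun i => f (v i)) = a' + r • b' := by
      ext1 i; simp [f, ι, v, a', b', Algebra.ofId_apply]; ring
    rw [f0, f1, f3] at hr0
    rw [f0, f1, f3, f2] at hr1
    unfold G0 at hr0
    unfold G1 at hr1
    refine sing F hF p' (a' + r • b') b' (ι w) hw' k0 ?_ kb ?_ ?_ ?_ ?_ ?_
    · rw [Φ_add4, Φ_smul4, ka, kb]; ring
    · simp only [Φ_add1, Φ_add2, Φ_add3, Φ_add4, Φ_sub1, Φ_sub2,
      Φ_sub3, Φ_sub4, Φ_smul1, Φ_smul2, Φ_smul3, Φ_smul4]
      simp only [Φ_s23 F _ b' a', Φ_s34 F _ _ b' a', kaaa, kaab, kabb, kbbb]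
      ring
    · simp only [Φ_add1, Φ_add2, Φ_add3, Φ_add4, Φ_sub1, Φ_sub2,
      Φ_sub3, Φ_sub4, Φ_smul1, Φ_smul2, Φ_smul3, Φ_smul4]
      simp only [Φ_s23 F _ b' a', kaab, kabb, kbbb]
      ring
    · have : dt p' (a' + r • b') b' = dt p' a' b' := by
        simp only [dt, Pi.add_apply, Pi.smul_apply, smul_eq_mul]; ring
      rw [this]; exact kd
    · linear_combination hr0
    · have h4 : (4 : K) ≠ 0 := by norm_num
      apply mul_left_cancel₀ h4
      linear_combination hr1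
  have h2X : (2 : k[X]) ≠ 0 := by
    have : (2 : k[X]) = C 2 := (map_ofNat C 2).symm
    rw [this]; simp
  have h3X : (3 : k[X]) ≠ 0 := by
    have : (3 : k[X]) = C 3 := (map_ofNat C 3).symm
    rw [this]; simp
  have h4X : (4 : k[X]) ≠ 0 := by
    have : (4 : k[X]) = C 4 := (map_ofNat C 4).symm
    rw [this]; simp
  have hG0 : G0 F (C w) pC v ≠ 0 := by
    intro h0
    refine hroot 0 ⟨by rw [h0, map_zero], ?_⟩
    rw [← D0, h0, map_zero, map_zero]
  have hM : GM F (C w) pC v bC ≠ 0 := by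
    intro hM0
    have hdeg : ((G0 F (C w) pC v).map (algebraMap k K)).degree = 0 := by
      by_contra hdeg
      obtain ⟨r, hr⟩ := IsAlgClosed.exists_root _ hdeg
      have hr0 : aeval r (G0 F (C w) pC v) = 0 := by
        rw [← eval_map_algebraMap]; exact hr
      refine hroot r ⟨hr0, ?_⟩
      have h3 := congrArg (aeval r : k[X] →ₐ[k] K) hM0
      unfold GM at h3
      simp only [map_add, map_sub, map_mul, map_pow, hr0, map_zero] at h3
      have h4 : aeval r (G1 F (C w) pC v bC) ^ 3 = 0 := by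
        rw [← h3]; ring
      exact pow_eq_zero_iff (three_ne_zero) |>.mp h4
    rw [degree_map] at hdeg
    have hC := eq_C_of_degree_eq_zero hdeg
    have hz1 : G1 F (C w) pC v bC = 0 := by
      rw [← D0, hC]; exact derivative_C
    have hz2 : G2 F (C w) pC v bC = 0 := by
      rw [hz1, map_zero] at D1
      exact (mul_eq_zero.mp D1.symm).resolve_left h2X
    have hz3 : G3 F (C w) pC v bC = 0 := by
      rw [hz2, map_zero] at D2
      exact (mul_eq_zero.mp D2.symm).resolve_left h3X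
    have hz4 : G4 F (C w) pC bC = 0 := by
      rw [hz3, map_zero] at D3
      exact (mul_eq_zero.mp D3.symm).resolve_left h4X
    let f : k[X] →ₐ[k] K := aeval (0 : K)
    have f0 : f (C w) = ι w := by simp [f, ι, Algebra.ofId_apply]
    have f1 : (fun i => f (pC i)) = p' := by ext1 i; simp [f, ι, pC, p', Algebra.ofId_apply]
    have f2 : (fun i => f (bC i)) = b' := by ext1 i; simp [f, ι, bC, b', Algebra.ofId_apply]
    have f3 : (fun i => f (v i)) = a' := by
      ext1 i; simp [f, ι, v, a', Algebra.ofId_apply]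
    have g3 := congrArg f hz3
    have g4 := congrArg f hz4
    rw [G3_map, f0, f1, f2, f3, map_zero] at g3
    rw [G4_map, f0, f1, f2, map_zero] at g4
    unfold G3 at g3
    unfold G4 at g4
    refine sing F hF p' b' a' (ι w) hw' k0 kb ka kbbb ?_ ?_ ?_ ?_
    · simp only [Φ_s34 F _ _ b' a', Φ_s23 F _ b' a', kabb]
    · have : dt p' b' a' = - dt p' a' b' := by simp only [dt]; ring
      rw [this]; exact neg_ne_zero.mpr kd
    · linear_combination g4
    · have h4 : (4 : K) ≠ 0 := by norm_num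
      apply mul_left_cancel₀ h4
      simp only [Φ_s34 F _ _ b' a', Φ_s23 F _ b' a', Φ_s12 F b' a']
      linear_combination g3
  have hQ : F.Φ v v v v ≠ 0 := by
    intro h0
    have h3 := NR F hF v h0
    apply hd
    apply dt_par
    intro i j
    have h4 := congrArg (eval 0) (h3 i j)
    simpa [v] using h4
  obtain ⟨s, hs⟩ : ∃ s : k, eval s (GM F (C w) pC v bC * G0 F (C w) pC v * F.Φ v v v v) ≠ 0 := by
    by_contra hall
    push Not at hall
    exact mul_ne_zero (mul_ne_zero hM hG0) hQ (Polynomial.funext (by simpa using hall))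
  rw [eval_mul, eval_mul] at hs
  let f : k[X] →ₐ[k] k := aeval s
  have fe : ∀ q, eval s q = f q := fun q => by simp only [f, coe_aeval_eq_eval]
  rw [fe, fe, fe, GM_map, G0_map, Φ_map] at hs
  have f0 : f (C w) = w := by simp [f]
  have f1 : (fun i => f (pC i)) = p := by ext1 i; simp [f, pC]
  have f2 : (fun i => f (bC i)) = b := by ext1 i; simp [f, bC]
  have f3 : (fun i => f (v i)) = a + s • b := by
    ext1 i; simp [f, v]; ring
  rw [f0, f1, f2, f3] at hs
  refine caseII_end F hF p (a + s • b) b w hw0 ?_ q0 ?_ hb ?_ ?_ ?_ hbbb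
    (right_ne_zero_of_mul (left_ne_zero_of_mul hs)) (right_ne_zero_of_mul hs)
    (left_ne_zero_of_mul (left_ne_zero_of_mul hs))
  · have : dt p (a + s • b) b = dt p a b := by
      simp only [dt, Pi.add_apply, Pi.smul_apply, smul_eq_mul]; ring
    rw [this]; exact hd
  · rw [Φ_add4, Φ_smul4, ha, hb]; ring
  · apply hcub
    rw [Φ_add4, Φ_smul4, ha, hb]; ring
  · simp only [Φ_add1, Φ_add2, Φ_add3, Φ_add4, Φ_sub1, Φ_sub2,
      Φ_sub3, Φ_sub4, Φ_smul1, Φ_smul2, Φ_smul3, Φ_smul4]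
    simp only [Φ_s23 F _ b a, haab, habb, hbbb]
    ring
  · simp only [Φ_add1, Φ_add2, Φ_add3, Φ_add4, Φ_sub1, Φ_sub2,
      Φ_sub3, Φ_sub4, Φ_smul1, Φ_smul2, Φ_smul3, Φ_smul4]
    simp only [habb, hbbb]
    ring

end Pool.Agent.Work.MP_d5a5f5_ag.DP
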