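import Mathlib

/-!
Del Pezzo surfaces of degree two: definitions.
-/

namespace Pool.Agent.Work.MP_d5a5f5_ag.DP

open MvPolynomial

variable {k : Type*} [Field k]

/-- The plane quartic curve `Q = 0` is smooth: the partial derivatives of `Q` have no common zero
other than the origin over the algebraic closure of `k`. -/
def Smooth (Q : MvPolynomial (Fin 3) k) : Prop :=
  ∀ x : Fin 3 → AlgebraicClosure k, (∀ i, aeval x (pderiv i Q) = 0) → x = 0

/-- The double plane `X : w² = Q(x₀, x₁, x₂)` in the weighted projective space with weights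
`2, 1, 1, 1` is `k`-unirational: there are polynomials `g, f₀, f₁, f₂` over `k` in `n` variables, not
all zero, with `g² = Q(f)`, so that they define a rational map from `n`-space to `X`, which is
dominant: every weighted form over `k` in `w, x₀, x₁, x₂` (here `w` is the variable with index 0)
which vanishes at `(g, f)` vanishes at every point of `X` over the algebraic closure of `k`. -/
def Unirational (Q : MvPolynomial (Fin 3) k) : Prop :=
  ∃ (n : ℕ) (g : MvPolynomial (Fin n) k) (f : Fin 3 → MvPolynomial (Fin n) k),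
    f ≠ 0 ∧ g ^ 2 = aeval f Q ∧
    ∀ (d : ℕ) (H : MvPolynomial (Fin 4) k), H.IsWeightedHomogeneous ![2, 1, 1, 1] d →
      aeval (Fin.cons g f : Fin 4 → MvPolynomial (Fin n) k) H = 0 →
      ∀ (w : AlgebraicClosure k) (x : Fin 3 → AlgebraicClosure k), w ^ 2 = aeval x Q →
        aeval (Fin.cons w x : Fin 4 → AlgebraicClosure k) H = 0

/-- A point `p` of the plane curve `Q = 0` is a hyperflex: the restriction of `Q` to the tangent line
at `p` vanishes to order four at `p`. -/
def Hyperflex (Q : MvPolynomial (Fin 3) k) (p : Fin 3 → k) : Prop :=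
  ∀ (v : Fin 3 → k) (s : k), ∑ i, v i * aeval p (pderiv i Q) = 0 →
    aeval (v + s • p) Q = aeval v Q

/-- There is a linear involution of `k³`, not the identity, which fixes `p` and `Q`. -/
def FixedByInvolution (Q : MvPolynomial (Fin 3) k) (p : Fin 3 → k) : Prop :=
  ∃ τ : (Fin 3 → k) →ₗ[k] (Fin 3 → k), τ ≠ LinearMap.id ∧ (∀ x, τ (τ x) = x) ∧ τ p = p ∧
    ∀ x, aeval (τ x) Q = aeval x Q

end Pool.Agent.Work.MP_d5a5f5_ag.DP
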