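import Pool.Agent.Work.MP_d5a5f5_ag.DP.Defs
import Pool.Agent.Work.MP_d5a5f5_ag.DP.CaseIIb
import Pool.Agent.Work.MP_d5a5f5_ag.DP.CaseIII

/-!
Del Pezzo surfaces of degree two: the final theorem.
-/

namespace Pool.Agent.Work.MP_d5a5f5_ag.DP

set_option linter.unusedSimpArgs false

open MvPolynomial

universe u

variable {k : Type u} [Field k]

/-- division by `w² - Q` -/
theorem division (Q : MvPolynomial (Fin 3) k) (H : MvPolynomial (Fin 4) k) :
    ∃ A B : MvPolynomial (Fin 3) k, ∀ {R : Type u} [CommRing R] [Algebra k R] (x : Fin 3 → R)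
      (w : R), w ^ 2 = aeval x Q → aeval (Fin.cons w x : Fin 4 → R) H =
        aeval x A + aeval x B * w := by
  induction H using MvPolynomial.induction_on with
  | C c => exact ⟨C c, 0, by intro R _ _ x w _; simp [algHom_C]⟩
  | add p q hp hq =>
    obtain ⟨A, B, h1⟩ := hp
    obtain ⟨A', B', h2⟩ := hq
    refine ⟨A + A', B + B', ?_⟩
    intro R _ _ x w hw
    rw [map_add, h1 x w hw, h2 x w hw, map_add, map_add]; ring
  | mul_X p i hp =>
    obtain ⟨A, B, h1⟩ := hp
    refine Fin.cases ?_ (fun j => ?_) i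
    · refine ⟨B * Q, A, ?_⟩
      intro R _ _ x w hw
      rw [map_mul, h1 x w hw, aeval_X, Fin.cons_zero, map_mul, ← hw]; ring
    · refine ⟨A * X j, B * X j, ?_⟩
      intro R _ _ x w hw
      rw [map_mul, h1 x w hw, aeval_X, Fin.cons_succ, map_mul, map_mul, aeval_X]; ring

/-- the quartic form has a nontrivial zero -/
theorem exists_zero [CharZero k] (F : Quartic k) :
    ∃ x : Fin 3 → AlgebraicClosure k, x ≠ 0 ∧ F.Φ x x x x = 0 := by
  let K := AlgebraicClosure k
  let e0 : Fin 3 → K := Pi.single 0 1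
  let e1 : Fin 3 → K := Pi.single 1 1
  by_cases h : F.Φ e0 e0 e0 e0 = 0
  · refine ⟨e0, fun h0 => ?_, h⟩
    have := congrFun h0 0
    simp [e0] at this
  · let P : Polynomial K := Polynomial.C (F.Φ e0 e0 e0 e0) * Polynomial.X ^ 4
      + Polynomial.C (4 * F.Φ e0 e0 e0 e1) * Polynomial.X ^ 3
      + Polynomial.C (6 * F.Φ e0 e0 e1 e1) * Polynomial.X ^ 2
      + Polynomial.C (4 * F.Φ e0 e1 e1 e1) * Polynomial.X
      + Polynomial.C (F.Φ e1 e1 e1 e1)
    have hdeg : P.natDegree = 4 := by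
      simp only [P]
      compute_degree!
    obtain ⟨r, hr⟩ := IsAlgClosed.exists_root P (by
      intro h0
      have h1 : P.natDegree = 0 :=
        Polynomial.natDegree_eq_of_degree_eq_some (n := 0) (by simpa using h0)
      rw [hdeg] at h1
      norm_num at h1)
    refine ⟨r • e0 + e1, fun h0 => ?_, ?_⟩
    · have := congrFun h0 1
      simp [e0, e1] at this
    · have h1 : Polynomial.eval r P = 0 := hr
      simp only [P, Polynomial.eval_add, Polynomial.eval_mul, Polynomial.eval_pow,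
        Polynomial.eval_X, Polynomial.eval_C] at h1
      simp only [Φ_add1, Φ_add2, Φ_add3, Φ_add4, Φ_sub1, Φ_sub2,
      Φ_sub3, Φ_sub4, Φ_smul1, Φ_smul2, Φ_smul3, Φ_smul4]
      simp only [Φ_s12 F e1 e0, Φ_s23 F _ e1 e0, Φ_s34 F _ _ e1 e0]
      linear_combination h1

theorem Sm_of_smooth [CharZero k] {F : Quartic k} {Q : MvPolynomial (Fin 3) k}
    (h : Q = F.Φ (fun i => (X i : MvPolynomial (Fin 3) k)) (fun i => X i)
      (fun i => X i) (fun i => X i)) (hs : Smooth Q) : F.Sm := by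
  intro x hx
  refine hs x fun i => ?_
  rw [aeval_pderiv_tensor h, hx i, mul_zero]

/-- `Q` is not a square -/
theorem not_sq [CharZero k] {F : Quartic k} {Q : MvPolynomial (Fin 3) k}
    (h : Q = F.Φ (fun i => (X i : MvPolynomial (Fin 3) k)) (fun i => X i)
      (fun i => X i) (fun i => X i)) (hs : Smooth Q) (c : MvPolynomial (Fin 3) k) :
    c ^ 2 ≠ Q := by
  intro hc
  obtain ⟨x, hx, hx0⟩ := exists_zero F
  apply hx
  refine hs x fun i => ?_
  have h1 : aeval x c ^ 2 = 0 := by rw [← map_pow, hc, aeval_tensor h, hx0]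
  have h2 := pow_eq_zero_iff (two_ne_zero) |>.mp h1
  rw [← hc, pow_two, pderiv_mul, map_add, map_mul, map_mul, h2]
  ring

theorem unirational_of_curve [CharZero k] {F : Quartic k} {Q : MvPolynomial (Fin 3) k}
    (h : Q = F.Φ (fun i => (X i : MvPolynomial (Fin 3) k)) (fun i => X i)
      (fun i => X i) (fun i => X i)) (hs : Smooth Q) (hc : HasCurve F) : Unirational Q := by
  obtain ⟨p, w, hw, hw0, hpar⟩ := hc
  obtain ⟨f, g, hg, hf⟩ := step2 F (Sm_of_smooth h hs) p w hw hw0 hpar
  refine ⟨4, g, f, ?_, by rw [aeval_tensor h]; exact hg, ?_⟩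
  · rintro rfl
    have := hf (X 0) (by simp)
    exact X_ne_zero 0 this
  · intro d H _ hH w' x hx
    obtain ⟨A, B, hAB⟩ := division Q H
    rw [hAB f g (by rw [aeval_tensor h]; exact hg)] at hH
    have h1 : aeval f (A ^ 2 - B ^ 2 * Q) = 0 := by
      rw [map_sub, map_mul, map_pow, map_pow, aeval_tensor h, ← hg]
      linear_combination (aeval f A - aeval f B * g) * hH
    have h2 := hf _ h1
    have h3 : A ^ 2 = B ^ 2 * Q := sub_eq_zero.mp h2
    have hB : B = 0 := by
      by_contra hB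
      have h4 : B ^ 2 ∣ A ^ 2 := ⟨Q, h3⟩
      have h5 : B ∣ A := (IsIntegrallyClosed.pow_dvd_pow_iff (two_ne_zero)).mp h4
      obtain ⟨c, hc⟩ := h5
      apply not_sq h hs c
      apply mul_left_cancel₀ (pow_ne_zero 2 hB)
      rw [← h3, hc]; ring
    have hA : A = 0 := by
      rw [hB] at h3
      have : A ^ 2 = 0 := by rw [h3]; ring
      exact pow_eq_zero_iff (two_ne_zero) |>.mp this
    rw [hAB x w' hx, hA, hB]
    simp

theorem main [CharZero k] (Q : MvPolynomial (Fin 3) k) (hQ : Q.IsHomogeneous 4) (hs : Smooth Q)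
    (p : Fin 3 → k) (w : k) (hp : p ≠ 0) (hw : w ^ 2 = aeval p Q)
    (h : w ≠ 0 ∨ ((∃ (v : Fin 3 → k) (s : k), ∑ i, v i * aeval p (pderiv i Q) = 0 ∧
        aeval (v + s • p) Q ≠ aeval v Q) ∧
      ∀ τ : (Fin 3 → k) →ₗ[k] (Fin 3 → k), (∀ x, τ (τ x) = x) → τ p = p →
        (∀ x, aeval (τ x) Q = aeval x Q) → ∀ x, τ x = x)) : Unirational Q := by
  obtain ⟨F, hF⟩ := exists_tensor Q hQ
  have hSm := Sm_of_smooth hF hs
  apply unirational_of_curve hF hs
  rw [aeval_tensor hF] at hw
  -- points outside the branch curve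
  have key : ∀ (p : Fin 3 → k) (w : k), F.Φ p p p p = w ^ 2 → w ≠ 0 → HasCurve F := by
    intro p w hw hw0
    by_cases hc : ∃ a, ct F w p a ≠ 0
    · obtain ⟨a, ha⟩ := hc
      exact caseI F hSm p w hw hw0 a ha
    · push Not at hc
      exact caseII F hSm p w hw0 hw hc
  by_cases hw0 : w = 0
  · rcases h with h | ⟨⟨v, s, hv, hvs⟩, hinv⟩
    · exact absurd hw0 h
    · have h0 : F.Φ p p p p = 0 := by rw [← hw, hw0]; ring
      have hv' : F.Φ p p p v = 0 := by
        have h4 : (4 : k) * F.Φ p p p v = 0 := by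
          rw [Φ_basis, Finset.mul_sum, ← hv]
          refine Finset.sum_congr rfl fun i _ => ?_
          rw [aeval_pderiv_tensor hF]; ring
        exact (mul_eq_zero.mp h4).resolve_left (by norm_num)
      simp only [aeval_tensor hF] at hvs hinv
      have hexp : ∀ t : k, F.Φ (v + t • p) (v + t • p) (v + t • p) (v + t • p) =
          F.Φ v v v v + 4 * t * F.Φ p v v v + 6 * t ^ 2 * F.Φ p p v v := by
        intro t
        simp only [Φ_add1, Φ_add2, Φ_add3, Φ_add4, Φ_sub1, Φ_sub2,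
      Φ_sub3, Φ_sub4, Φ_smul1, Φ_smul2, Φ_smul3, Φ_smul4]
        simp only [Φ_s12 F v p, Φ_s23 F _ v p, Φ_s34 F _ _ v p, h0, hv']
        ring
      by_cases ha : F.Φ p p v v = 0
      · -- a flex
        have hd : F.Φ p v v v ≠ 0 := by
          intro hd
          apply hvs
          rw [hexp, ha, hd]; ring
        refine key (v + ((1 - F.Φ v v v v) / (4 * F.Φ p v v v)) • p) 1 ?_ one_ne_zero
        rw [hexp, ha]
        field_simp
        ring
      · exact caseIII_nonflex F hSm p v hp h0 hv' ha hinv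
  · exact key p w hw.symm hw0

end Pool.Agent.Work.MP_d5a5f5_ag.DP
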