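import Pool.Agent.Work.MP_d5a5f5_ag.DP.NR

/-!
The polynomial identities behind the parametrisation.
-/

namespace Pool.Agent.Work.MP_d5a5f5_ag.DP

set_option linter.unusedSimpArgs false

variable {k : Type*} [Field k]

section
variable (F : Quartic k) {A : Type*} [CommRing A] [Algebra k A] (w w' w'' : A)
  (p u v x y : Fin 3 → A)

/-- the quadratic form -/
def qt : A := 3 * w ^ 2 * F.Φ p p x x - 2 * F.Φ p p p x ^ 2
/-- the polar form of `qt` -/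
def qt2 : A := 3 * w ^ 2 * F.Φ p p x y - 2 * F.Φ p p p x * F.Φ p p p y
/-- the quartic form -/
def gt : A := w ^ 6 * F.Φ x x x x - qt F w p x ^ 2
/-- the polar form of `gt` at `x x x y` -/
def gt2 : A := w ^ 6 * F.Φ x x x y - qt F w p x * qt2 F w p x y
/-- the cubic form -/
def ct : A := w ^ 4 * F.Φ p x x x - F.Φ p p p x * qt F w p x
/-- the residual point -/
def RR : Fin 3 → A := (4 * w ^ 2 * ct F w p x) • x - gt F w p x • p
/-- the quadratic form of the variation -/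
def EE : A := -3 * w ^ 2 * w' * F.Φ p p x x + 6 * w ^ 3 * F.Φ p u x x
  - 12 * w * F.Φ p p p x * F.Φ p p u x + 6 * w' * F.Φ p p p x ^ 2
/-- the polar form of `EE` -/
def EE2 : A := -3 * w ^ 2 * w' * F.Φ p p x y + 6 * w ^ 3 * F.Φ p u x y
  - 6 * w * (F.Φ p p p x * F.Φ p p u y + F.Φ p p p y * F.Φ p p u x)
  + 6 * w' * F.Φ p p p x * F.Φ p p p y

variable {F w w' p u x y}

theorem qt_lin (hw : F.Φ p p p p = w ^ 2) (α β : A) :
    qt F w p (α • p + β • x) = α ^ 2 * w ^ 4 + 2 * α * β * w ^ 2 * F.Φ p p p x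
      + β ^ 2 * qt F w p x := by
  unfold qt
  simp only [Φ_add1, Φ_add2, Φ_add3, Φ_add4, Φ_sub1, Φ_sub2,
      Φ_sub3, Φ_sub4, Φ_smul1, Φ_smul2, Φ_smul3, Φ_smul4]
  simp only [Φ_s34 F p p x p, hw]
  ring

theorem gt_lin (hw : F.Φ p p p p = w ^ 2) (α β : A) :
    gt F w p (α • p + β • x) = β ^ 3 * (α * (4 * w ^ 2 * ct F w p x) + β * gt F w p x) := by
  unfold gt
  rw [qt_lin hw]
  unfold ct qt
  simp only [Φ_add1, Φ_add2, Φ_add3, Φ_add4, Φ_sub1, Φ_sub2,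
      Φ_sub3, Φ_sub4, Φ_smul1, Φ_smul2, Φ_smul3, Φ_smul4]
  simp only [Φ_s12 F x p, Φ_s23 F _ x p, Φ_s34 F _ _ x p, hw]
  ring

theorem ct_lin (hw : F.Φ p p p p = w ^ 2) (α β : A) :
    ct F w p (α • p + β • x) = β ^ 3 * ct F w p x := by
  unfold ct
  rw [qt_lin hw]
  unfold qt
  simp only [Φ_add1, Φ_add2, Φ_add3, Φ_add4, Φ_sub1, Φ_sub2,
      Φ_sub3, Φ_sub4, Φ_smul1, Φ_smul2, Φ_smul3, Φ_smul4]
  simp only [Φ_s23 F _ x p, Φ_s34 F _ _ x p, hw]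
  ring

theorem EE_lin (hw : F.Φ p p p p = w ^ 2) (hu : 2 * F.Φ p p p u = w * w') (α β : A) :
    EE F w w' p u (α • p + β • x) = β ^ 2 * EE F w w' p u x := by
  unfold EE
  simp only [Φ_add1, Φ_add2, Φ_add3, Φ_add4, Φ_sub1, Φ_sub2,
      Φ_sub3, Φ_sub4, Φ_smul1, Φ_smul2, Φ_smul3, Φ_smul4]
  simp only [Φ_s34 F p p x p, Φ_s34 F p u x p, Φ_s23 F p u p, Φ_s34 F p p u p, hw]
  linear_combination (3 * α ^ 2 * w ^ 3 - 6 * w ^ 3 * α ^ 2 - 6 * α * β * w * F.Φ p p p x) * hu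

theorem RR_eq : RR F w p x = (-gt F w p x) • p + (4 * w ^ 2 * ct F w p x) • x := by
  unfold RR; rw [neg_smul]; abel

theorem gt_RR (hw : F.Φ p p p p = w ^ 2) : gt F w p (RR F w p x) = 0 := by
  rw [RR_eq, gt_lin hw]; ring

theorem Φ_RR (hw : F.Φ p p p p = w ^ 2) : w ^ 6 * F.Φ (RR F w p x) (RR F w p x) (RR F w p x)
    (RR F w p x) = qt F w p (RR F w p x) ^ 2 := by
  have := gt_RR (x := x) hw
  unfold gt at this
  linear_combination this

theorem EE_RR (hw : F.Φ p p p p = w ^ 2) (hu : 2 * F.Φ p p p u = w * w') :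
    EE F w w' p u (RR F w p x) = (4 * w ^ 2 * ct F w p x) ^ 2 * EE F w w' p u x := by
  rw [RR_eq, EE_lin hw hu]

theorem Φ_point (hw : F.Φ p p p p = w ^ 2) :
    (w * qt F w p (RR F w p x)) ^ 2 = F.Φ (w ^ 2 • RR F w p x) (w ^ 2 • RR F w p x)
      (w ^ 2 • RR F w p x) (w ^ 2 • RR F w p x) := by
  simp only [Φ_add1, Φ_add2, Φ_add3, Φ_add4, Φ_sub1, Φ_sub2,
      Φ_sub3, Φ_sub4, Φ_smul1, Φ_smul2, Φ_smul3, Φ_smul4]
  linear_combination -w ^ 2 * Φ_RR (x := x) hw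

/-- the polarisation of the cubic form gives the quadratic form `EE` -/
theorem ct_polar (hu : 2 * F.Φ p p p u = w * w') :
    ct F w p (x + u) - ct F w p (x - u) - 2 * ct F w p u = w * EE F w w' p u x := by
  unfold ct qt EE
  simp only [Φ_add1, Φ_add2, Φ_add3, Φ_add4, Φ_sub1, Φ_sub2,
      Φ_sub3, Φ_sub4, Φ_smul1, Φ_smul2, Φ_smul3, Φ_smul4]
  simp only [Φ_s23 F _ x u, Φ_s34 F _ _ x u]
  linear_combination (-3 * w ^ 2 * F.Φ p p x x + 6 * F.Φ p p p x ^ 2) * hu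

theorem EE_polar : EE F w w' p u (x + y) - EE F w w' p u x - EE F w w' p u y =
    2 * EE2 F w w' p u x y := by
  unfold EE EE2
  simp only [Φ_add1, Φ_add2, Φ_add3, Φ_add4, Φ_sub1, Φ_sub2,
      Φ_sub3, Φ_sub4, Φ_smul1, Φ_smul2, Φ_smul3, Φ_smul4]
  simp only [Φ_s34 F p p y x, Φ_s34 F p u y x]
  ring

/-- the gradient of `gt` on the line through `p` and `u` -/
theorem gt2_line (hw : F.Φ p p p p = w ^ 2) (hu : 2 * F.Φ p p p u = w * w') (α : A) :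
    2 * gt2 F w p (α • p + u) y = 2 * gt2 F w p u y + α * w ^ 3 * EE2 F w w' p u u y := by
  unfold gt2 qt qt2 EE2
  simp only [Φ_add1, Φ_add2, Φ_add3, Φ_add4, Φ_sub1, Φ_sub2,
      Φ_sub3, Φ_sub4, Φ_smul1, Φ_smul2, Φ_smul3, Φ_smul4]
  simp only [Φ_s34 F _ _ u p, Φ_s23 F _ u p, Φ_s12 F u p, hw]
  linear_combination α * (-3 * w ^ 4 * F.Φ p p u y + 6 * w ^ 2 * F.Φ p p p u * F.Φ p p p y) * hu

/-- the variation of `EE2` -/
theorem gt2_var (δ : Derivation k A A) (hp : (fun i => δ (p i)) = u) (hu' : (fun i => δ (u i)) = v)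
    (hy : (fun i => δ (y i)) = 0) (hw1 : δ w = w') (hw2 : δ w' = w'')
    (hu : 2 * F.Φ p p p u = w * w') :
    6 * gt2 F w p u y = w ^ 3 * δ (EE2 F w w' p u u y) - 2 * w ^ 3 * EE2 F w w' p u v y
      - 3 * w ^ 2 * w' * EE2 F w w' p u u y + 4 * w * F.Φ p p p u * EE2 F w w' p u u y
      + 2 * w * F.Φ p p p y * EE F w w' p u u := by
  have hv : 2 * F.Φ p p p v + 6 * F.Φ p p u u = w' ^ 2 + w * w'' := by
    have h1 := congrArg δ hu
    simp only [Derivation.leibniz, Φ_der, hp, hu', smul_eq_mul, hw1, hw2] at h1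
    rw [Φ_s12 F u p, Φ_s23 F p u p] at h1
    have h2 : δ (2 : A) = 0 := by
      have : (2 : A) = algebraMap k A 2 := (map_ofNat _ 2).symm
      rw [this, δ.map_algebraMap]
    rw [h2] at h1
    linear_combination h1
  have hn : ∀ n : ℕ, δ (n : A) = 0 := δ.map_natCast
  have h3 : δ (3 : A) = 0 := hn 3
  have h6 : δ (6 : A) = 0 := hn 6
  unfold EE2 gt2 qt qt2 EE
  simp only [map_add, map_sub, map_neg, Derivation.leibniz, Derivation.leibniz_pow, Φ_der, hp, hu',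
    hy, smul_eq_mul, hw1, hw2, h3, h6, Φ_zero4, nsmul_eq_mul, Nat.cast_ofNat]
  simp only [Φ_s12 F u p, Φ_s23 F _ u p, Φ_s34 F _ _ v u, Φ_s23 F _ v u]
  linear_combination -(6 * w ^ 4 * F.Φ p u u y - 3 * w ^ 4 * F.Φ p p v y
    - w ^ 2 * (30 * F.Φ p p p u + 6 * w * w') * F.Φ p p u y
    + F.Φ p p p y * (-42 * w ^ 2 * F.Φ p p u u + 3 * w ^ 3 * w'' + 12 * F.Φ p p p u ^ 2
      + 24 * (w * w') * F.Φ p p p u + 3 * (w * w') ^ 2)) * hu
    - (3 * w ^ 4 * F.Φ p p u y - 3 * w ^ 2 * (w * w') * F.Φ p p p y) * hv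

end

end Pool.Agent.Work.MP_d5a5f5_ag.DP
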