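import Pool.Agent.Work.MP_d5a5f5_ag.DP.Ident

/-!
Derivatives of the covariants, and their behaviour under algebra maps.
-/

namespace Pool.Agent.Work.MP_d5a5f5_ag.DP

variable {k : Type*} [Field k]

section
variable {F : Quartic k} {A : Type*} [CommRing A] [Algebra k A] {w w' w'' : A}
  {p u v x y : Fin 3 → A}

/-- determinant -/
def dt (a b c : Fin 3 → A) : A :=
  a 0 * (b 1 * c 2 - b 2 * c 1) + a 1 * (b 2 * c 0 - b 0 * c 2) + a 2 * (b 0 * c 1 - b 1 * c 0)

theorem qt_der (δ : Derivation k A A) (hp : (fun i => δ (p i)) = u) (hw1 : δ w = w') :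
    w * δ (qt F w p x) = 2 * w * qt2 F w p x (fun i => δ (x i)) + EE F w w' p u x
      + 3 * w' * qt F w p x := by
  have hn : ∀ n : ℕ, δ (n : A) = 0 := δ.map_natCast
  have h2 : δ (2 : A) = 0 := hn 2
  have h3 : δ (3 : A) = 0 := hn 3
  unfold qt qt2 EE
  simp only [map_sub, Derivation.leibniz, Derivation.leibniz_pow, Φ_der, hp,
    smul_eq_mul, hw1, h2, h3, nsmul_eq_mul, Nat.cast_ofNat]
  simp only [Φ_s12 F u p, Φ_s23 F _ u p, Φ_s34 F p p (fun i => δ (x i)) x]
  ring

theorem gt_der (δ : Derivation k A A) (hp : (fun i => δ (p i)) = u) (hw1 : δ w = w') :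
    w * δ (gt F w p x) = 4 * w * gt2 F w p x (fun i => δ (x i)) + 6 * w' * w ^ 6 * F.Φ x x x x
      - 2 * qt F w p x * (EE F w w' p u x + 3 * w' * qt F w p x) := by
  have h1 := qt_der (F := F) (x := x) δ hp hw1
  unfold gt gt2
  simp only [map_sub, Derivation.leibniz, Derivation.leibniz_pow, Φ_der,
    smul_eq_mul, hw1, nsmul_eq_mul, Nat.cast_ofNat]
  simp only [Φ_s12 F (fun i => δ (x i)) x, Φ_s23 F _ (fun i => δ (x i)) x,
    Φ_s34 F _ _ (fun i => δ (x i)) x]
  linear_combination (-2 * qt F w p x) * h1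

theorem gt_der0 (δ : Derivation k A A) (hp : (fun i => δ (p i)) = 0) (hw1 : δ w = 0) :
    δ (gt F w p x) = 4 * gt2 F w p x (fun i => δ (x i)) := by
  have hn : ∀ n : ℕ, δ (n : A) = 0 := δ.map_natCast
  have h2 : δ (2 : A) = 0 := hn 2
  have h3 : δ (3 : A) = 0 := hn 3
  unfold gt gt2 qt qt2
  simp only [map_sub, Derivation.leibniz, Derivation.leibniz_pow, Φ_der, hp,
    smul_eq_mul, hw1, h2, h3, nsmul_eq_mul, Nat.cast_ofNat, Φ_zero1, Φ_zero2, Φ_zero3]
  simp only [Φ_s12 F (fun i => δ (x i)) x, Φ_s23 F _ (fun i => δ (x i)) x,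
    Φ_s34 F _ _ (fun i => δ (x i)) x]
  ring

theorem gt2_basis : gt2 F w p x y = ∑ i, y i * gt2 F w p x (Pi.single i 1) := by
  unfold gt2 qt2
  rw [Φ_basis F x x x y, Φ_basis F p p x y, Φ_basis F p p p y]
  simp only [Fin.sum_univ_three]
  ring

theorem gt2_self : gt2 F w p x x = gt F w p x := by
  unfold gt2 gt qt2 qt
  ring

theorem dt_RR (δ : Derivation k A A) (hp : (fun i => δ (p i)) = 0) :
    dt p (RR F w p x) (fun i => δ (RR F w p x i)) =
      (4 * w ^ 2 * ct F w p x) ^ 2 * dt p x (fun i => δ (x i)) := by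
  have h0 : ∀ i, δ (p i) = 0 := fun i => congrFun hp i
  unfold dt RR
  simp only [Pi.sub_apply, Pi.smul_apply, smul_eq_mul]
  generalize 4 * w ^ 2 * ct F w p x = c
  generalize gt F w p x = g
  simp only [map_sub, Derivation.leibniz, smul_eq_mul, h0]
  ring

/-- Euler's identity for the point `RR` -/
theorem RR_euler (δ : Derivation k A A) (hp : (fun i => δ (p i)) = 0) (hw1 : δ w = 0)
    (hx : (fun i => δ (x i)) = x) : (fun i => δ (RR F w p x i)) = (4 : A) • RR F w p x := by
  have hn : ∀ n : ℕ, δ (n : A) = 0 := δ.map_natCast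
  have h2 : δ (2 : A) = 0 := hn 2
  have h3 : δ (3 : A) = 0 := hn 3
  have h4 : δ (4 : A) = 0 := hn 4
  have h0 : ∀ i, δ (p i) = 0 := fun i => congrFun hp i
  have hx0 : ∀ i, δ (x i) = x i := fun i => congrFun hx i
  have hq : δ (qt F w p x) = 2 * qt F w p x := by
    unfold qt
    simp only [map_sub, Derivation.leibniz, Derivation.leibniz_pow, Φ_der, hp, hx,
      smul_eq_mul, hw1, h2, h3, nsmul_eq_mul, Nat.cast_ofNat, Φ_zero1, Φ_zero2, Φ_zero3]
    ring
  have hg : δ (gt F w p x) = 4 * gt F w p x := by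
    unfold gt
    simp only [map_sub, Derivation.leibniz, Derivation.leibniz_pow, Φ_der, hx, hq,
      smul_eq_mul, hw1, nsmul_eq_mul, Nat.cast_ofNat]
    ring
  have hc : δ (ct F w p x) = 3 * ct F w p x := by
    unfold ct
    simp only [map_sub, Derivation.leibniz, Derivation.leibniz_pow, Φ_der, hp, hx, hq,
      smul_eq_mul, hw1, nsmul_eq_mul, Nat.cast_ofNat, Φ_zero1, Φ_zero2, Φ_zero3]
    ring
  ext i
  unfold RR
  simp only [Pi.sub_apply, Pi.smul_apply, smul_eq_mul, map_sub, Derivation.leibniz,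
    Derivation.leibniz_pow, hg, hc, h0, hx0, hw1, h4, nsmul_eq_mul, Nat.cast_ofNat]
  ring

section map
variable {B : Type*} [CommRing B] [Algebra k B] (f : A →ₐ[k] B)

theorem qt_map : f (qt F w p x) = qt F (f w) (fun i => f (p i)) (fun i => f (x i)) := by
  unfold qt
  simp only [map_sub, map_mul, map_pow, Φ_map, map_ofNat]

theorem gt_map : f (gt F w p x) = gt F (f w) (fun i => f (p i)) (fun i => f (x i)) := by
  unfold gt
  simp only [map_sub, map_mul, map_pow, Φ_map, qt_map]

theorem qt2_map : f (qt2 F w p x y) =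
    qt2 F (f w) (fun i => f (p i)) (fun i => f (x i)) (fun i => f (y i)) := by
  unfold qt2
  simp only [map_sub, map_mul, map_pow, Φ_map, map_ofNat]

theorem gt2_map : f (gt2 F w p x y) =
    gt2 F (f w) (fun i => f (p i)) (fun i => f (x i)) (fun i => f (y i)) := by
  unfold gt2
  simp only [map_sub, map_mul, map_pow, Φ_map, qt_map, qt2_map]

theorem ct_map : f (ct F w p x) = ct F (f w) (fun i => f (p i)) (fun i => f (x i)) := by
  unfold ct
  simp only [map_sub, map_mul, map_pow, Φ_map, qt_map]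

theorem RR_map (i : Fin 3) : f (RR F w p x i) =
    RR F (f w) (fun i => f (p i)) (fun i => f (x i)) i := by
  unfold RR
  simp only [Pi.sub_apply, Pi.smul_apply, smul_eq_mul, map_sub, map_mul, map_pow, ct_map, gt_map,
    map_ofNat]

theorem EE_map : f (EE F w w' p u x) =
    EE F (f w) (f w') (fun i => f (p i)) (fun i => f (u i)) (fun i => f (x i)) := by
  unfold EE
  simp only [map_sub, map_add, map_mul, map_pow, Φ_map, map_ofNat, map_neg]

theorem EE2_map : f (EE2 F w w' p u x y) =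
    EE2 F (f w) (f w') (fun i => f (p i)) (fun i => f (u i)) (fun i => f (x i))
      (fun i => f (y i)) := by
  unfold EE2
  simp only [map_sub, map_add, map_mul, map_pow, Φ_map, map_ofNat, map_neg]

end map

end

end Pool.Agent.Work.MP_d5a5f5_ag.DP
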