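import Pool.Agent.Work.MP_d5a5f5_ag.DP.Ident2

/-!
Linear algebra in three variables, and two geometric lemmas.
-/

namespace Pool.Agent.Work.MP_d5a5f5_ag.DP

open Polynomial

section lin
variable {A : Type*} [CommRing A]

/-- dot product -/
def dot (n z : Fin 3 → A) : A := n 0 * z 0 + n 1 * z 1 + n 2 * z 2

theorem dot_prop [IsDomain A] {n N u v z p : Fin 3 → A} (h1 : dot n u = 0) (h2 : dot n v = 0)
    (h3 : dot N u = 0) (h4 : dot N v = 0) (hd : dt p u v ≠ 0) (hn : n ≠ 0) (hz : dot n z = 0) :
    dot N z = 0 := by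
  unfold dot at *
  -- the cross product
  set m : Fin 3 → A := ![u 1 * v 2 - u 2 * v 1, u 2 * v 0 - u 0 * v 2, u 0 * v 1 - u 1 * v 0]
    with hm
  have hm0 : m ≠ 0 := by
    intro h
    have e0 := congrFun h 0
    have e1 := congrFun h 1
    have e2 := congrFun h 2
    simp [hm] at e0 e1 e2
    apply hd
    unfold dt
    rw [e0, e1, e2]; ring
  have pn : ∀ i j, m i * n j = m j * n i := by
    intro i j
    fin_cases i <;> fin_cases j <;>
      simp [hm] <;>
      first
      | ring1
      | linear_combination (v 0) * h1 - (u 0) * h2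
      | linear_combination (v 1) * h1 - (u 1) * h2
      | linear_combination (v 2) * h1 - (u 2) * h2
      | linear_combination -(v 0) * h1 + (u 0) * h2
      | linear_combination -(v 1) * h1 + (u 1) * h2
      | linear_combination -(v 2) * h1 + (u 2) * h2
  have pN : ∀ i j, m i * N j = m j * N i := by
    intro i j
    fin_cases i <;> fin_cases j <;>
      simp [hm] <;>
      first
      | ring1
      | linear_combination (v 0) * h3 - (u 0) * h4
      | linear_combination (v 1) * h3 - (u 1) * h4
      | linear_combination (v 2) * h3 - (u 2) * h4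
      | linear_combination -(v 0) * h3 + (u 0) * h4
      | linear_combination -(v 1) * h3 + (u 1) * h4
      | linear_combination -(v 2) * h3 + (u 2) * h4
  obtain ⟨a, ha⟩ := Function.ne_iff.mp hn
  obtain ⟨b, hb⟩ := Function.ne_iff.mp hm0
  simp only [Pi.zero_apply] at ha hb
  have hmz : m 0 * z 0 + m 1 * z 1 + m 2 * z 2 = 0 := by
    have : n a * (m 0 * z 0 + m 1 * z 1 + m 2 * z 2) = 0 := by
      linear_combination m a * hz + z 0 * pn 0 a + z 1 * pn 1 a + z 2 * pn 2 a
    exact (mul_eq_zero.mp this).resolve_left ha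
  have : m b * (N 0 * z 0 + N 1 * z 1 + N 2 * z 2) = 0 := by
    linear_combination N b * hmz + z 0 * pN b 0 + z 1 * pN b 1 + z 2 * pN b 2
  exact (mul_eq_zero.mp this).resolve_left hb

/-- functionals on parallel vectors -/
theorem par_dt {a b : Fin 3 → A} (h : ∀ i j, a i * b j = a j * b i) (u v u' v' : Fin 3 → A) :
    dt a u v * dt b u' v' = dt b u v * dt a u' v' := by
  have h01 := h 0 1
  have h02 := h 0 2
  have h12 := h 1 2
  unfold dt
  linear_combination ((u 1 * v 2 - u 2 * v 1) * (u' 2 * v' 0 - u' 0 * v' 2)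
    - (u 2 * v 0 - u 0 * v 2) * (u' 1 * v' 2 - u' 2 * v' 1)) * h01
    + ((u 1 * v 2 - u 2 * v 1) * (u' 0 * v' 1 - u' 1 * v' 0)
    - (u 0 * v 1 - u 1 * v 0) * (u' 1 * v' 2 - u' 2 * v' 1)) * h02
    + ((u 2 * v 0 - u 0 * v 2) * (u' 0 * v' 1 - u' 1 * v' 0)
    - (u 0 * v 1 - u 1 * v 0) * (u' 2 * v' 0 - u' 0 * v' 2)) * h12

theorem dt_par {p a b : Fin 3 → A} (h : ∀ i j, a i * b j = a j * b i) : dt p a b = 0 := by
  have h01 := h 0 1
  have h02 := h 0 2
  have h12 := h 1 2
  unfold dt
  linear_combination p 0 * h12 - p 1 * h02 + p 2 * h01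

end lin

variable {k : Type*} [Field k]

/-- the residual curve of a line is not contained in the branch curve -/
theorem NRline [CharZero k] (F : Quartic k) (hF : F.Sm) (p a b : Fin 3 → k) (w : k)
    (hw : F.Φ p p p p = w ^ 2) (hc : ct F w p a ≠ 0) (hw0 : w ≠ 0) (hd : dt p a b ≠ 0) :
    qt F (C w) (fun i => C (p i)) (RR F (C w) (fun i => C (p i)) (fun i => C (a i) + X * C (b i)))
      ≠ 0 ∧ ¬ ∀ i j, RR F (C w) (fun i => C (p i)) (fun i => C (a i) + X * C (b i)) i *
        derivative (RR F (C w) (fun i => C (p i)) (fun i => C (a i) + X * C (b i)) j) =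
        RR F (C w) (fun i => C (p i)) (fun i => C (a i) + X * C (b i)) j *
        derivative (RR F (C w) (fun i => C (p i)) (fun i => C (a i) + X * C (b i)) i) := by
  set P : Fin 3 → k[X] := RR F (C w) (fun i => C (p i)) (fun i => C (a i) + X * C (b i)) with hP
  have hwC : F.Φ (fun i => C (p i)) (fun i => C (p i)) (fun i => C (p i)) (fun i => C (p i))
      = (C w) ^ 2 := by
    have := Φ_map F p p p p (Algebra.ofId k k[X])
    rw [hw] at this
    simpa [Algebra.ofId_apply] using this.symm
  have hpar : ¬ ∀ i j, P i * derivative (P j) = P j * derivative (P i) := by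
    intro h
    have h1 := dt_RR (F := F) (w := C w) (p := fun i => C (p i))
      (x := fun i => C (a i) + X * C (b i)) (derivative' (R := k))
      (by ext i : 1; simp [derivative'])
    rw [← hP] at h1
    have h2 : dt (fun i => C (p i)) P (fun i => derivative' (P i)) = 0 := dt_par h
    rw [h2] at h1
    have h3 := congrArg (eval 0) h1
    have h4 := ct_map (F := F) (w := C w) (p := fun i => C (p i))
      (x := fun i => C (a i) + X * C (b i)) (aeval (0 : k) : k[X] →ₐ[k] k)
    simp only [coe_aeval_eq_eval, eval_C, eval_add, eval_mul, eval_X, zero_mul, add_zero] at h4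
    have h5 : eval 0 (dt (fun i => C (p i)) (fun i => C (a i) + X * C (b i))
        (fun i => derivative' (C (a i) + X * C (b i)))) = dt p a b := by
      simp [dt, derivative']
    rw [eval_zero, eval_mul, eval_pow, eval_mul, eval_mul, eval_pow, eval_C, h4, h5] at h3
    have h6 : eval 0 (4 : k[X]) = 4 := by
      have : (4 : k[X]) = C 4 := (map_ofNat C 4).symm
      rw [this, eval_C]
    rw [h6] at h3
    exact (mul_ne_zero (pow_ne_zero 2 (mul_ne_zero (mul_ne_zero (by norm_num : (4 : k) ≠ 0)
      (pow_ne_zero 2 hw0)) hc)) hd) h3.symm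
  refine ⟨fun hq => hpar (NR F hF P ?_), hpar⟩
  have h1 := Φ_RR (x := fun i => C (a i) + X * C (b i)) hwC
  rw [← hP, hq] at h1
  have h2 : (C w : k[X]) ^ 6 ≠ 0 := pow_ne_zero 6 (by simpa using hw0)
  have h3 : (C w : k[X]) ^ 6 * F.Φ P P P P = 0 := by rw [h1]; ring
  exact (mul_eq_zero.mp h3).resolve_left h2

/-- a vector completing `p, a` -/
theorem exists_compl [CharZero k] (F : Quartic k) (p a : Fin 3 → k) (w : k)
    (hw : F.Φ p p p p = w ^ 2) (hc : ct F w p a ≠ 0) (hw0 : w ≠ 0) : ∃ b, dt p a b ≠ 0 := by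
  by_contra hcon
  push Not at hcon
  have e0 := hcon (Pi.single 0 1)
  have e1 := hcon (Pi.single 1 1)
  have e2 := hcon (Pi.single 2 1)
  simp [dt] at e0 e1 e2
  have hp : p ≠ 0 := by
    rintro rfl
    rw [Φ_zero1] at hw
    exact hw0 (pow_eq_zero_iff (two_ne_zero) |>.mp hw.symm)
  obtain ⟨i, hi⟩ := Function.ne_iff.mp hp
  simp only [Pi.zero_apply] at hi
  apply hc
  have ha : a = (a i / p i) • p + (0 : k) • a := by
    ext j
    simp only [Pi.add_apply, Pi.smul_apply, smul_eq_mul, zero_mul, add_zero]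
    field_simp
    fin_cases i <;> fin_cases j <;> simp <;>
      first
      | ring1
      | linear_combination e0
      | linear_combination e1
      | linear_combination e2
      | linear_combination -e0
      | linear_combination -e1
      | linear_combination -e2
  have h1 := ct_lin (x := a) hw (a i / p i) 0
  rw [← ha] at h1
  rw [h1]; ring

theorem two_Φ_der {A : Type*} [CommRing A] [IsDomain A] [Algebra k A] [CharZero k]
    {F : Quartic k} {p : Fin 3 → A} {w : A} (hw : F.Φ p p p p = w ^ 2) (δ : Derivation k A A) :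
    2 * F.Φ p p p (fun i => δ (p i)) = w * δ w := by
  have h2 : (2 : A) ≠ 0 := by
    have : (2 : A) = algebraMap k A 2 := (map_ofNat _ 2).symm
    rw [this]
    exact (map_ne_zero_iff _ (algebraMap k A).injective).mpr two_ne_zero
  have h3 := congrArg δ hw
  rw [Φ_der, Derivation.leibniz_pow] at h3
  rw [Φ_s12 F (fun i => δ (p i)) p, Φ_s23 F p (fun i => δ (p i)) p,
    Φ_s34 F p p (fun i => δ (p i)) p] at h3
  simp only [smul_eq_mul, nsmul_eq_mul, Nat.cast_ofNat] at h3
  apply mul_left_cancel₀ h2
  linear_combination h3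

/-- the quadratic form `EE` does not vanish identically -/
theorem EE_ne [CharZero k] (F : Quartic k) (hF : F.Sm) (p : Fin 3 → k[X]) (w : k[X])
    (hw : F.Φ p p p p = w ^ 2) (hw0 : w ≠ 0)
    (hpar : ¬ ∀ i j, p i * derivative (p j) = p j * derivative (p i)) :
    ∃ c : Fin 3 → k[X], EE F w (derivative w) p (fun i => derivative (p i)) c ≠ 0 := by
  by_contra hcon
  push Not at hcon
  set u : Fin 3 → k[X] := fun i => derivative (p i) with hu
  set v : Fin 3 → k[X] := fun i => derivative (u i) with hv
  have h2 : (2 : k[X]) ≠ 0 := by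
    have : (2 : k[X]) = C 2 := (map_ofNat C 2).symm
    rw [this]; simp
  have h6 : (6 : k[X]) ≠ 0 := by
    have : (6 : k[X]) = C 6 := (map_ofNat C 6).symm
    rw [this]; simp
  have hE2 : ∀ x y : Fin 3 → k[X], EE2 F w (derivative w) p u x y = 0 := by
    intro x y
    have := EE_polar (F := F) (w := w) (w' := derivative w) (p := p) (u := u) (x := x) (y := y)
    rw [hcon, hcon, hcon] at this
    have h3 : 2 * EE2 F w (derivative w) p u x y = 0 := by rw [← this]; ring
    exact (mul_eq_zero.mp h3).resolve_left h2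
  let δ : Derivation k k[X] k[X] := derivative' (R := k)
  have hpu : 2 * F.Φ p p p u = w * derivative w := two_Φ_der hw δ
  have hgt2 : ∀ i : Fin 3, gt2 F w p u (Pi.single i 1) = 0 := by
    intro i
    have h3 := gt2_var (F := F) (w := w) (w' := derivative w) (w'' := derivative (derivative w))
      (p := p) (u := u) (v := v) (y := Pi.single i 1) δ rfl rfl (by
        ext j : 1
        simp only [Pi.single_apply, Pi.zero_apply]
        split_ifs
        · exact δ.map_one_eq_zero
        · exact map_zero δ) rfl rfl hpu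
    rw [hE2, hE2, hcon, map_zero] at h3
    have h4 : 6 * gt2 F w p u (Pi.single i 1) = 0 := by rw [h3]; ring
    exact (mul_eq_zero.mp h4).resolve_left h6
  push Not at hpar
  obtain ⟨i, j, hij⟩ := hpar
  obtain ⟨τ, hτ⟩ : ∃ τ : k, eval τ (w * (p i * derivative (p j) - p j * derivative (p i))) ≠ 0 := by
    by_contra hall
    push Not at hall
    exact mul_ne_zero hw0 (sub_ne_zero.mpr hij) (Polynomial.funext (by simpa using hall))
  rw [eval_mul] at hτ
  have hwτ : eval τ w ≠ 0 := left_ne_zero_of_mul hτ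
  have hpτ := right_ne_zero_of_mul hτ
  let K := AlgebraicClosure k
  let f : k[X] →ₐ[k] K := aeval (algebraMap k K τ)
  have hf : ∀ q : k[X], f q = algebraMap k K (eval τ q) := fun q => by
    simp only [f]; rw [aeval_algebraMap_apply, coe_aeval_eq_eval]
  have hw0' : f w ≠ 0 := by rw [hf]; simpa using hwτ
  have e1 := Φ_map F p p p p f
  rw [hw, map_pow] at e1
  have e2 := Φ_map F p p p u f
  have e3 : 2 * F.Φ (fun i => f (p i)) (fun i => f (p i)) (fun i => f (p i)) (fun i => f (u i)) =
      f w * f (derivative w) := by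
    rw [← e2, ← map_mul, ← hpu, map_mul, map_ofNat]
  have hs : ∀ i : Fin 3, (fun j => f ((Pi.single i (1 : k[X]) : Fin 3 → k[X]) j))
      = Pi.single i 1 := by
    intro i; ext j; simp only [Pi.single_apply]; split_ifs <;> simp
  have e4 : ∀ i : Fin 3, gt2 F (f w) (fun i => f (p i)) (fun i => f (u i)) (Pi.single i 1) = 0 := by
    intro i
    have := congrArg f (hgt2 i)
    rwa [gt2_map, map_zero, hs] at this
  have e5 : ∀ i : Fin 3, EE2 F (f w) (f (derivative w)) (fun i => f (p i)) (fun i => f (u i))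
      (fun i => f (u i)) (Pi.single i 1) = 0 := by
    intro i
    have := congrArg f (hE2 u (Pi.single i 1))
    rwa [EE2_map, map_zero, hs] at this
  set p' : Fin 3 → K := fun i => f (p i) with hp'
  set u' : Fin 3 → K := fun i => f (u i) with hu'
  obtain ⟨s, hs2⟩ := IsAlgClosed.exists_pow_nat_eq
    (F.Φ p' p' p' u' ^ 2 - qt F (f w) p' u') (n := 2) (by norm_num)
  set α : K := (s - F.Φ p' p' p' u') / f w ^ 2 with hα
  have hq : qt F (f w) p' (α • p' + u') = 0 := by
    have h1 := qt_lin (F := F) (w := f w) (p := p') (x := u') e1.symm α 1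
    rw [one_smul] at h1
    rw [h1]
    have h3 : α * f w ^ 2 = s - F.Φ p' p' p' u' := by
      rw [hα, div_mul_cancel₀ _ (pow_ne_zero 2 hw0')]
    linear_combination (α * f w ^ 2 + (s - F.Φ p' p' p' u') + 2 * F.Φ p' p' p' u') * h3 + hs2
  have hx : ∀ i : Fin 3, F.Φ (α • p' + u') (α • p' + u') (α • p' + u') (Pi.single i 1) = 0 := by
    intro i
    have h1 := gt2_line (F := F) (w := f w) (w' := f (derivative w)) (p := p') (u := u')
      (y := Pi.single i 1) e1.symm e3 α
    rw [e4, e5] at h1
    unfold gt2 at h1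
    rw [hq] at h1
    have h3 : (2 * f w ^ 6) * F.Φ (α • p' + u') (α • p' + u') (α • p' + u') (Pi.single i 1) = 0 := by
      linear_combination h1
    exact (mul_eq_zero.mp h3).resolve_left (mul_ne_zero two_ne_zero (pow_ne_zero 6 hw0'))
  have h0 := hF _ hx
  have hi0 := congrFun h0 i
  have hj0 := congrFun h0 j
  simp only [Pi.add_apply, Pi.smul_apply, smul_eq_mul, Pi.zero_apply] at hi0 hj0
  apply hpτ
  have h7 : f (p i * derivative (p j) - p j * derivative (p i)) = 0 := by
    rw [map_sub, map_mul, map_mul]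
    change p' i * u' j - p' j * u' i = 0
    linear_combination p' i * hj0 - p' j * hi0
  rw [hf] at h7
  have h8 := (map_eq_zero (algebraMap k K)).mp h7
  simpa using h8

end Pool.Agent.Work.MP_d5a5f5_ag.DP
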