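import Pool.Agent.Work.MP_d5a5f5_ag.DP.Tensor

/-!
A smooth plane quartic contains no nonconstant rational curve.
-/

namespace Pool.Agent.Work.MP_d5a5f5_ag.DP

open Polynomial

variable {k : Type*} [Field k]

/-- smoothness in terms of the tensor -/
def Quartic.Sm (F : Quartic k) : Prop :=
  ∀ x : Fin 3 → AlgebraicClosure k, (∀ i, F.Φ x x x (Pi.single i 1) = 0) → x = 0

theorem coeff_Φ {K : Type*} [Field K] [Algebra k K] (F : Quartic k)
    (a b c e : Fin 3 → K[X]) (da db dc de : ℕ)
    (ha : ∀ i, (a i).natDegree ≤ da) (hb : ∀ i, (b i).natDegree ≤ db)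
    (hc : ∀ i, (c i).natDegree ≤ dc) (he : ∀ i, (e i).natDegree ≤ de) :
    (F.Φ a b c e).coeff (da + db + dc + de) =
      F.Φ (fun i => (a i).coeff da) (fun i => (b i).coeff db) (fun i => (c i).coeff dc)
        (fun i => (e i).coeff de) := by
  unfold Quartic.Φ
  simp only [finsetSum_coeff]
  refine Finset.sum_congr rfl fun i _ => Finset.sum_congr rfl fun j _ =>
    Finset.sum_congr rfl fun l _ => Finset.sum_congr rfl fun m _ => ?_
  have h1 : (a i * b j).natDegree ≤ da + db :=
    natDegree_mul_le.trans (add_le_add (ha i) (hb j))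
  have h2 : (a i * b j * c l).natDegree ≤ da + db + dc :=
    natDegree_mul_le.trans (add_le_add h1 (hc l))
  rw [Polynomial.algebraMap_apply, coeff_C_mul, coeff_mul_add_eq_of_natDegree_le h2 (he m),
    coeff_mul_add_eq_of_natDegree_le h1 (hc l), coeff_mul_add_eq_of_natDegree_le (ha i) (hb j)]

/-- Bezout over a principal ideal domain, if there is no common root -/
theorem bezout {K : Type*} [Field K] [IsAlgClosed K] (V : Fin 3 → K[X])
    (h : ∀ r : K, ¬ ∀ i, (V i).eval r = 0) : ∃ w : Fin 3 → K[X], ∑ i, w i * V i = 1 := by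
  obtain ⟨c, hc⟩ : ∃ c, Ideal.span (Set.range V) = Ideal.span {c} :=
    (IsPrincipalIdealRing.principal (Ideal.span (Set.range V))).principal
  have hd : c.degree = 0 := by
    by_contra hdeg
    obtain ⟨r, hr⟩ := IsAlgClosed.exists_root c hdeg
    refine h r fun i => ?_
    have : V i ∈ Ideal.span {c} := hc ▸ Ideal.subset_span ⟨i, rfl⟩
    obtain ⟨d, hd⟩ := Ideal.mem_span_singleton.mp this
    rw [hd, eval_mul, hr.eq_zero, zero_mul]
  have hu : IsUnit c := Polynomial.isUnit_iff_degree_eq_zero.mpr hd
  have h1 : (1 : K[X]) ∈ Ideal.span (Set.range V) := by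
    rw [hc, Ideal.mem_span_singleton]; exact hu.dvd
  obtain ⟨w, hw⟩ := (Submodule.mem_span_range_iff_exists_fun K[X]).mp h1
  exact ⟨w, by simpa [smul_eq_mul] using hw⟩

theorem NR_coprime [CharZero k] (F : Quartic k) (hF : F.Sm) (P : Fin 3 → (AlgebraicClosure k)[X])
    (hu : ∃ u : Fin 3 → (AlgebraicClosure k)[X], ∑ i, u i * P i = 1) (h : F.Φ P P P P = 0) :
    ∀ i j, P i * derivative (P j) = P j * derivative (P i) := by
  classical
  let K := AlgebraicClosure k
  obtain ⟨u, hu⟩ := hu
  set V : Fin 3 → K[X] := fun i => F.Φ P P P (Pi.single i 1) with hV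
  have hVP : ∑ i, P i * V i = 0 := by rw [← Φ_basis]; exact h
  have hVP' : ∑ i, derivative (P i) * V i = 0 := by
    have h1 := congrArg (derivative (R := K)) h
    have h2 := Φ_der F P P P P ((derivative' (R := K)).restrictScalars k)
    have h3 : ((derivative' (R := K)).restrictScalars k) (F.Φ P P P P)
        = derivative (F.Φ P P P P) := rfl
    rw [h3, h1] at h2
    have h4 : ∀ i, ((derivative' (R := K)).restrictScalars k) (P i) = derivative (P i) :=
      fun i => rfl
    simp only [h4, derivative_zero] at h2
    rw [Φ_s12 F (fun i => derivative (P i)), Φ_s23 F P (fun i => derivative (P i)),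
      Φ_s34 F P P (fun i => derivative (P i))] at h2
    have h5 : (4 : K[X]) * F.Φ P P P (fun i => derivative (P i)) = 0 := by
      linear_combination -h2
    have h6 : F.Φ P P P (fun i => derivative (P i)) = 0 := by
      rcases mul_eq_zero.mp h5 with h | h
      · exact absurd h (by
          have : (4 : K[X]) = C 4 := (map_ofNat C 4).symm
          rw [this]; simp)
      · exact h
    rw [← h6, Φ_basis F P P P (fun i => derivative (P i))]
  -- V is unimodular
  obtain ⟨w, hw⟩ := bezout V (by
    intro r hr
    have h0 : ∀ i, F.Φ (fun i => (P i).eval r) (fun i => (P i).eval r) (fun i => (P i).eval r)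
        (Pi.single i 1) = 0 := by
      intro i
      have := hr i
      rw [hV] at this
      have h1 := Φ_map F P P P (Pi.single i 1) ((aeval r : K[X] →ₐ[K] K).restrictScalars k)
      have h2 : ((aeval r : K[X] →ₐ[K] K).restrictScalars k) (F.Φ P P P (Pi.single i 1)) = 0 := by
        simp only [AlgHom.restrictScalars_apply, coe_aeval_eq_eval]; exact this
      rw [h2] at h1
      have h3 : (fun j => ((aeval r : K[X] →ₐ[K] K).restrictScalars k)
          ((Pi.single i (1 : K[X]) : Fin 3 → K[X]) j)) = Pi.single i 1 := by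
        ext j; simp only [Pi.single_apply]; split_ifs <;> simp
      rw [h3] at h1
      simpa using h1.symm
    have h1 := hF _ h0
    have h2 := congrArg (eval r) hu
    rw [eval_finsetSum] at h2
    simp only [eval_mul, eval_one] at h2
    have h3 : ∀ i, (P i).eval r = 0 := fun i => congrFun h1 i
    simp [h3] at h2)
  set W : Fin 3 → K[X] := fun i =>
    P (i + 1) * derivative (P (i + 2)) - P (i + 2) * derivative (P (i + 1)) with hW
  have key : ∀ i j, V i * W j = V j * W i := by
    rw [Fin.sum_univ_three] at hVP hVP'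
    intro i j
    rw [hW]
    fin_cases i <;> fin_cases j <;>
      simp only [Fin.zero_eta, Fin.mk_one, Fin.reduceFinMk, Fin.isValue, zero_add,
        Fin.reduceAdd] <;>
      first
      | ring1
      | linear_combination (derivative (P 0)) * hVP - (P 0) * hVP'
      | linear_combination (derivative (P 1)) * hVP - (P 1) * hVP'
      | linear_combination (derivative (P 2)) * hVP - (P 2) * hVP'
      | linear_combination -(derivative (P 0)) * hVP + (P 0) * hVP'
      | linear_combination -(derivative (P 1)) * hVP + (P 1) * hVP'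
      | linear_combination -(derivative (P 2)) * hVP + (P 2) * hVP'
  -- W = h V
  have hWV : ∀ j, W j = (∑ i, w i * W i) * V j := by
    intro j
    calc W j = (∑ i, w i * V i) * W j := by rw [hw, one_mul]
      _ = ∑ i, w i * (V i * W j) := by rw [Finset.sum_mul]; simp only [mul_assoc]
      _ = ∑ i, w i * (V j * W i) := by simp only [key _ j]
      _ = (∑ i, w i * W i) * V j := by
        rw [Finset.sum_mul]; exact Finset.sum_congr rfl fun i _ => by ring
  -- the degrees
  have hP0 : ∃ i, P i ≠ 0 := by
    by_contra hcon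
    push Not at hcon
    simp [hcon] at hu
  set d : ℕ := Finset.univ.sup (fun i => (P i).natDegree) with hd
  have hdle : ∀ i, (P i).natDegree ≤ d := fun i =>
    Finset.le_sup (f := fun i => (P i).natDegree) (Finset.mem_univ i)
  obtain ⟨i0, hi0⟩ : ∃ i, (P i).coeff d ≠ 0 := by
    rcases Nat.eq_zero_or_pos d with h0 | h0
    · obtain ⟨i, hi⟩ := hP0
      refine ⟨i, fun hc => hi ?_⟩
      have := hdle i
      rw [h0] at this hc
      rw [Polynomial.eq_C_of_natDegree_le_zero this, hc, C_0]
    · obtain ⟨i, -, hi⟩ := Finset.exists_mem_eq_sup Finset.univ ⟨0, Finset.mem_univ _⟩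
        (fun i => (P i).natDegree)
      refine ⟨i, fun hc => ?_⟩
      rw [hd, hi] at hc
      have : (P i).leadingCoeff = 0 := hc
      rw [leadingCoeff_eq_zero] at this
      rw [hd, hi, this] at h0
      simp at h0
  obtain ⟨i1, hi1⟩ : ∃ i, (V i).coeff (d + d + d + 0) ≠ 0 := by
    by_contra hcon
    push Not at hcon
    have h0 := hF (fun i => (P i).coeff d) (by
      intro i
      have h1 := hcon i
      rw [hV] at h1
      simp only at h1
      rw [coeff_Φ F P P P (Pi.single i 1) d d d 0 hdle hdle hdle (by
        intro j; simp only [Pi.single_apply]; split_ifs <;> simp)] at h1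
      have h3 : (fun j => ((Pi.single i (1 : K[X]) : Fin 3 → K[X]) j).coeff 0) = Pi.single i 1 := by
        ext j; simp only [Pi.single_apply]; split_ifs <;> simp
      rw [h3] at h1
      exact h1)
    exact hi0 (congrFun h0 i0)
  have hWdeg : ∀ i, (W i).natDegree ≤ d + (d - 1) := by
    intro i
    have h1 : ∀ a b : Fin 3, (P a * derivative (P b)).natDegree ≤ d + (d - 1) := fun a b =>
      natDegree_mul_le.trans (add_le_add (hdle a)
        ((natDegree_derivative_le _).trans (Nat.sub_le_sub_right (hdle b) 1)))
    exact (natDegree_sub_le _ _).trans (max_le (h1 _ _) (h1 _ _))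
  have hW0 : ∀ i, W i = 0 := by
    rcases Nat.eq_zero_or_pos d with h0 | h0
    · have hP' : ∀ i, derivative (P i) = 0 := by
        intro i
        have := hdle i
        rw [h0] at this
        rw [Polynomial.eq_C_of_natDegree_le_zero this]
        simp
      intro i
      simp [hW, hP']
    · have hh : (∑ i, w i * W i) = 0 := by
        by_contra hne
        have hV1 : V i1 ≠ 0 := fun h => hi1 (by rw [h]; simp)
        have h1 : (W i1).natDegree = (∑ i, w i * W i).natDegree + (V i1).natDegree := by
          conv_lhs => rw [hWV i1]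
          exact natDegree_mul hne hV1
        have h2 : d + d + d + 0 ≤ (V i1).natDegree := le_natDegree_of_ne_zero hi1
        have h3 := hWdeg i1
        omega
      intro i
      rw [hWV i, hh, zero_mul]
  intro i j
  have h0 := hW0 0
  have h1 := hW0 1
  have h2 := hW0 2
  rw [hW] at h0 h1 h2
  simp only [Fin.isValue, zero_add, Fin.reduceAdd] at h0 h1 h2
  fin_cases i <;> fin_cases j <;>
    simp only [Fin.zero_eta, Fin.mk_one, Fin.reduceFinMk, Fin.isValue] <;>
    first
    | ring1
    | linear_combination h0
    | linear_combination h1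
    | linear_combination h2
    | linear_combination -h0
    | linear_combination -h1
    | linear_combination -h2

theorem NR_K [CharZero k] (F : Quartic k) (hF : F.Sm) (P : Fin 3 → (AlgebraicClosure k)[X])
    (h : F.Φ P P P P = 0) :
    ∀ i j, P i * derivative (P j) = P j * derivative (P i) := by
  obtain ⟨g, hg⟩ : ∃ g, Ideal.span (Set.range P) = Ideal.span {g} :=
    (IsPrincipalIdealRing.principal (Ideal.span (Set.range P))).principal
  have hdvd : ∀ i, ∃ q, P i = g * q := by
    intro i
    have : P i ∈ Ideal.span {g} := hg ▸ Ideal.subset_span ⟨i, rfl⟩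
    exact Ideal.mem_span_singleton.mp this
  choose q hq using hdvd
  rcases eq_or_ne g 0 with h0 | h0
  · intro i j
    simp [hq, h0]
  have h1 : g ∈ Ideal.span (Set.range P) := by
    rw [hg]; exact Ideal.mem_span_singleton_self g
  obtain ⟨u, hu⟩ := (Submodule.mem_span_range_iff_exists_fun _).mp h1
  have hu1 : ∑ i, u i * q i = 1 := by
    apply mul_left_cancel₀ h0
    rw [mul_one]
    conv_rhs => rw [← hu]
    rw [Finset.mul_sum]
    refine Finset.sum_congr rfl fun i _ => ?_
    rw [smul_eq_mul, hq i]; ring
  have hP : P = g • q := by ext i; simp [hq]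
  have hq0 : F.Φ q q q q = 0 := by
    rw [hP, Φ_smul1, Φ_smul2, Φ_smul3, Φ_smul4] at h
    have h4 : g ^ 4 * F.Φ q q q q = 0 := by rw [← h]; ring
    exact (mul_eq_zero.mp h4).resolve_left (pow_ne_zero 4 h0)
  have := NR_coprime F hF q ⟨u, hu1⟩ hq0
  intro i j
  rw [hq i, hq j, derivative_mul, derivative_mul]
  linear_combination g ^ 2 * this i j

theorem NR [CharZero k] (F : Quartic k) (hF : F.Sm) (P : Fin 3 → k[X])
    (h : F.Φ P P P P = 0) :
    ∀ i j, P i * derivative (P j) = P j * derivative (P i) := by
  let f : k[X] →ₐ[k] (AlgebraicClosure k)[X] := mapAlgHom (Algebra.ofId k (AlgebraicClosure k))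
  have h1 := Φ_map F P P P P f
  rw [h, map_zero] at h1
  have h2 := NR_K F hF _ h1.symm
  intro i j
  have hinj : Function.Injective f := map_injective _ (algebraMap k (AlgebraicClosure k)).injective
  apply hinj
  have hf : ∀ p : k[X], derivative (f p) = f (derivative p) := fun p => derivative_map p _
  rw [map_mul, map_mul, ← hf, ← hf]
  exact h2 i j

end Pool.Agent.Work.MP_d5a5f5_ag.DP
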