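import Pool.Agent.Work.MP_d5a5f5_ag.DP.Lin

/-!
A curve on the surface which moves in the plane gives a dominant map.
-/

namespace Pool.Agent.Work.MP_d5a5f5_ag.DP

open Polynomial

variable {k : Type*} [Field k]

theorem chain {A : Type*} [CommRing A] [Algebra k A] (δ : Derivation k A A) (f : Fin 3 → A)
    (G : MvPolynomial (Fin 3) k) : δ (MvPolynomial.aeval f G) =
      ∑ i, MvPolynomial.aeval f (MvPolynomial.pderiv i G) * δ (f i) := by
  induction G using MvPolynomial.induction_on with
  | C c => simp [MvPolynomial.algHom_C]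
  | add p q hp hq =>
    simp only [map_add, hp, hq, add_mul, Finset.sum_add_distrib]
  | mul_X p i hp =>
    have h1 : ∑ x, MvPolynomial.aeval f p * MvPolynomial.aeval f
        (MvPolynomial.pderiv x (MvPolynomial.X i : MvPolynomial (Fin 3) k)) * δ (f x) =
        MvPolynomial.aeval f p * δ (f i) := by
      rw [Finset.sum_eq_single i]
      · rw [MvPolynomial.pderiv_X_self]; simp
      · intro x _ hx
        rw [MvPolynomial.pderiv_X_of_ne hx.symm]; simp
      · simp
    simp only [map_mul, Derivation.leibniz, hp, MvPolynomial.aeval_X,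
      map_add, smul_eq_mul, Finset.mul_sum, add_mul, Finset.sum_add_distrib, h1]
    congr 1
    exact Finset.sum_congr rfl fun j _ => by ring

/-- if the differentials of `f` are independent, then `f` is algebraically independent -/
theorem alg_indep [CharZero k] {A : Type*} [CommRing A] [IsDomain A] [Algebra k A] {ι : Type*}
    (δ : ι → Derivation k A A) (f : Fin 3 → A)
    (h : ∀ n : Fin 3 → A, (∀ s, dot n (fun i => δ s (f i)) = 0) → n = 0) :
    ∀ (N : ℕ) (G : MvPolynomial (Fin 3) k), (∀ m : Fin 3 →₀ ℕ, N < m 0 + m 1 + m 2 →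
      MvPolynomial.coeff m G = 0) → MvPolynomial.aeval f G = 0 → G = 0 := by
  have hconst : ∀ G : MvPolynomial (Fin 3) k, (∀ i, MvPolynomial.pderiv i G = 0) →
      MvPolynomial.aeval f G = 0 → G = 0 := by
    intro G hG h0
    have h1 : ∀ m : Fin 3 →₀ ℕ, m ≠ 0 → MvPolynomial.coeff m G = 0 := by
      intro m hm
      obtain ⟨i, hi⟩ := Finsupp.ne_iff.mp hm
      simp only [Finsupp.coe_zero, Pi.zero_apply] at hi
      have h2 := MvPolynomial.coeff_pderiv (i := i) G (m - Finsupp.single i 1)
      rw [hG i] at h2
      have h3 : m - Finsupp.single i 1 + Finsupp.single i 1 = m := by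
        ext j
        simp only [Finsupp.coe_add, Finsupp.coe_tsub, Pi.add_apply, Pi.sub_apply]
        rcases eq_or_ne i j with rfl | hij
        · simp; omega
        · simp [hij]
      rw [h3, MvPolynomial.coeff_zero] at h2
      rcases mul_eq_zero.mp h2.symm with h4 | h4
      · exact h4
      · exact absurd h4 (Nat.cast_add_one_ne_zero _)
    have h2 : G = MvPolynomial.C (MvPolynomial.coeff 0 G) := by
      ext m
      rw [MvPolynomial.coeff_C]
      split_ifs with h3
      · rw [← h3]
      · exact h1 m (Ne.symm h3)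
    rw [h2] at h0
    rw [MvPolynomial.algHom_C] at h0
    have h3 := (map_eq_zero_iff (algebraMap k A) (algebraMap k A).injective).mp h0
    rw [h2, h3, MvPolynomial.C_0]
  intro N
  induction N with
  | zero =>
    intro G hG h0
    refine hconst G (fun i => ?_) h0
    ext m
    rw [MvPolynomial.coeff_pderiv, hG, zero_mul, MvPolynomial.coeff_zero]
    fin_cases i <;> simp
  | succ N ih =>
    intro G hG h0
    refine hconst G (fun i => ih _ ?_ ?_) h0
    · intro m hm
      rw [MvPolynomial.coeff_pderiv, hG, zero_mul]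
      fin_cases i <;> simp <;> omega
    · have h1 := h (fun i => MvPolynomial.aeval f (MvPolynomial.pderiv i G)) (by
        intro s
        have h2 := chain (δ s) f G
        rw [h0, map_zero, Fin.sum_univ_three] at h2
        exact h2.symm)
      exact congrFun h1 i

/-- polynomials in the first variable -/
noncomputable def iota (k : Type*) [Field k] : k[X] →ₐ[k] MvPolynomial (Fin 4) k :=
  aeval (MvPolynomial.X 0)

/-- specialisation -/
noncomputable def psi (c : Fin 3 → k[X]) (t : k[X]) : MvPolynomial (Fin 4) k →ₐ[k] k[X] :=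
  MvPolynomial.aeval (Fin.cons t c : Fin 4 → k[X])

theorem psi_iota (c : Fin 3 → k[X]) (t q : k[X]) : psi c t (iota k q) = aeval t q := by
  have : (psi c t).comp (iota k) = (aeval t : k[X] →ₐ[k] k[X]) := by
    apply Polynomial.algHom_ext
    simp [psi, iota]
  exact congrArg (fun φ : k[X] →ₐ[k] k[X] => φ q) this

theorem psi_iota_X (c : Fin 3 → k[X]) (q : k[X]) : psi c X (iota k q) = q := by
  rw [psi_iota, aeval_X_left]; rfl

theorem psi_X (c : Fin 3 → k[X]) (t : k[X]) (i : Fin 3) :
    psi c t (MvPolynomial.X i.succ) = c i := by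
  simp [psi]

theorem iota_inj : Function.Injective (iota k) := by
  intro q r hqr
  have h1 := congrArg (psi 0 X) hqr
  rwa [psi_iota_X, psi_iota_X] at h1

theorem pderiv_iota (q : k[X]) : MvPolynomial.pderiv 0 (iota k q) = iota k (derivative q) := by
  have := (MvPolynomial.pderiv (R := k) (0 : Fin 4)).map_aeval q (MvPolynomial.X 0)
  rw [MvPolynomial.pderiv_X_self, smul_eq_mul, mul_one] at this
  exact this

theorem pderiv_succ_iota (j : Fin 3) (q : k[X]) : MvPolynomial.pderiv j.succ (iota k q) = 0 := by
  have := (MvPolynomial.pderiv (R := k) j.succ).map_aeval q (MvPolynomial.X 0)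
  rw [MvPolynomial.pderiv_X_of_ne (Fin.succ_ne_zero j).symm, smul_zero] at this
  exact this

/-- the main step: a rational curve on the surface, not constant in the plane and not in the branch
curve, gives a dominant map -/
theorem step2 [CharZero k] (F : Quartic k) (hF : F.Sm) (p : Fin 3 → k[X]) (w : k[X])
    (hw : F.Φ p p p p = w ^ 2) (hw0' : w ≠ 0)
    (hpar : ¬ ∀ i j, p i * derivative (p j) = p j * derivative (p i)) :
    ∃ (f : Fin 3 → MvPolynomial (Fin 4) k) (g : MvPolynomial (Fin 4) k),
      g ^ 2 = F.Φ f f f f ∧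
      ∀ G : MvPolynomial (Fin 3) k, MvPolynomial.aeval f G = 0 → G = 0 := by
  classical
  obtain ⟨c, hc⟩ := EE_ne F hF p w hw hw0' hpar
  set pS : Fin 3 → MvPolynomial (Fin 4) k := fun i => iota k (p i) with hpS
  set uS : Fin 3 → MvPolynomial (Fin 4) k := fun i => iota k (derivative (p i)) with huS
  set xS : Fin 3 → MvPolynomial (Fin 4) k := fun i => MvPolynomial.X i.succ with hxS
  set wS : MvPolynomial (Fin 4) k := iota k w with hwS
  have hwS0 : wS ≠ 0 := fun h => hw0' (iota_inj (by rw [← hwS, h, map_zero]))
  have hwΦ : F.Φ pS pS pS pS = wS ^ 2 := by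
    have := Φ_map F p p p p (iota k)
    rw [hw, map_pow] at this
    exact this.symm
  -- EE and ct do not vanish
  have hEE : EE F wS (iota k (derivative w)) pS uS xS ≠ 0 := by
    intro h
    have h1 := congrArg (psi c X) h
    rw [EE_map, map_zero] at h1
    simp only [hwS, hpS, huS, hxS, psi_iota_X, psi_X] at h1
    exact hc h1
  have hct : ct F wS pS xS ≠ 0 := by
    intro h
    have h1 : ∀ c : Fin 3 → k[X], ct F w p c = 0 := by
      intro c
      have h1 := congrArg (psi c X) h
      rw [ct_map, map_zero] at h1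
      simp only [hwS, hpS, hxS, psi_iota_X, psi_X] at h1
      exact h1
    have hpu : 2 * F.Φ p p p (fun i => derivative (p i)) = w * derivative w :=
      two_Φ_der hw (derivative' (R := k))
    have h2 := ct_polar (F := F) (x := c) hpu
    rw [h1, h1, h1] at h2
    have h3 : w * EE F w (derivative w) p (fun i => derivative (p i)) c = 0 := by
      rw [← h2]; ring
    exact hc ((mul_eq_zero.mp h3).resolve_left hw0')
  set R : Fin 3 → MvPolynomial (Fin 4) k := RR F wS pS xS with hR
  have hqt : qt F wS pS R ≠ 0 := by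
    intro h
    -- specialise to a line
    have hct' : ∃ a : Fin 4 → k, MvPolynomial.eval a (wS * ct F wS pS xS) ≠ 0 := by
      by_contra hall
      push Not at hall
      exact mul_ne_zero hwS0 hct (MvPolynomial.funext (by simpa using hall))
    obtain ⟨a, ha⟩ := hct'
    rw [← MvPolynomial.coe_aeval_eq_eval, RingHom.coe_coe, map_mul, ct_map] at ha
    have e1 : ∀ q : k[X], MvPolynomial.aeval a (iota k q) = eval (a 0) q := by
      intro q
      simp only [iota]
      rw [← Polynomial.aeval_algHom_apply, MvPolynomial.aeval_X, coe_aeval_eq_eval]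
    simp only [hwS, hpS, hxS, e1, MvPolynomial.aeval_X] at ha
    have hw1 : eval (a 0) w ≠ 0 := left_ne_zero_of_mul ha
    have hc1 : ct F (eval (a 0) w) (fun i => eval (a 0) (p i)) (fun i => a i.succ) ≠ 0 :=
      right_ne_zero_of_mul ha
    have hwa : F.Φ (fun i => eval (a 0) (p i)) (fun i => eval (a 0) (p i))
        (fun i => eval (a 0) (p i)) (fun i => eval (a 0) (p i)) = (eval (a 0) w) ^ 2 := by
      have := Φ_map F p p p p (aeval (a 0) : k[X] →ₐ[k] k)
      rw [hw, map_pow] at this
      simpa [coe_aeval_eq_eval] using this.symm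
    obtain ⟨b, hb⟩ := exists_compl F _ _ _ hwa hc1 hw1
    have h2 := (NRline F hF _ _ _ _ hwa hc1 hw1 hb).1
    have h1 := congrArg (psi (fun i => C (a i.succ) + X * C (b i)) (C (a 0))) h
    rw [hR, qt_map, map_zero] at h1
    have e2 : ∀ q : k[X], aeval (C (a 0)) q = C (eval (a 0) q) := by
      intro q
      have := Polynomial.aeval_algHom_apply (Algebra.ofId k k[X]) (a 0) q
      simpa [Algebra.ofId_apply, coe_aeval_eq_eval] using this
    simp only [RR_map, hwS, hpS, hxS, psi_iota, psi_X, e2] at h1
    exact h2 h1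
  refine ⟨wS ^ 2 • R, wS * qt F wS pS R, Φ_point hwΦ, ?_⟩
  have hmain := alg_indep (k := k) (fun s : Fin 4 => MvPolynomial.pderiv (R := k) s) (wS ^ 2 • R) (by
    intro n hn
    by_contra hn0
    -- the derivatives in the plane direction
    have hp0 : ∀ j : Fin 3, (fun i => MvPolynomial.pderiv (R := k) j.succ (pS i)) = 0 := by
      intro j; ext1 i; exact pderiv_succ_iota j (p i)
    have hw0 : ∀ j : Fin 3, MvPolynomial.pderiv (R := k) j.succ wS = 0 := fun j =>
      pderiv_succ_iota j w
    -- Euler
    let ε : Derivation k (MvPolynomial (Fin 4) k) (MvPolynomial (Fin 4) k) :=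
      ∑ j : Fin 3, (MvPolynomial.X j.succ : MvPolynomial (Fin 4) k) • MvPolynomial.pderiv j.succ
    have hε : ∀ q, ε q = MvPolynomial.X (Fin.succ 0) * MvPolynomial.pderiv (Fin.succ 0) q +
        MvPolynomial.X (Fin.succ 1) * MvPolynomial.pderiv (Fin.succ 1) q +
        MvPolynomial.X (Fin.succ 2) * MvPolynomial.pderiv (Fin.succ 2) q := by
      intro q
      simp only [ε, Fin.sum_univ_three, Derivation.add_apply, Derivation.smul_apply, smul_eq_mul]
    have hεp : (fun i => ε (pS i)) = 0 := by
      ext1 i
      rw [hε, congrFun (hp0 0) i, congrFun (hp0 1) i, congrFun (hp0 2) i]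
      simp
    have hεw : ε wS = 0 := by
      rw [hε, hw0, hw0, hw0]; simp
    have hdx : ∀ i j : Fin 3, MvPolynomial.pderiv j.succ (xS i) =
        (Pi.single j (1 : MvPolynomial (Fin 4) k) : Fin 3 → MvPolynomial (Fin 4) k) i := by
      intro i j
      simp only [hxS]
      rcases eq_or_ne i j with rfl | hij
      · rw [MvPolynomial.pderiv_X_self]; simp
      · rw [MvPolynomial.pderiv_X_of_ne (fun h => hij (Fin.succ_injective _ h))]
        simp [hij]
    have hεx : (fun i => ε (xS i)) = xS := by
      ext1 i
      rw [hε, hdx, hdx, hdx]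
      fin_cases i <;> simp [hxS]
    have hεR := RR_euler (F := F) ε hεp hεw hεx
    rw [← hR] at hεR
    have hf : ∀ i, (wS ^ 2 • R) i = wS ^ 2 * R i := fun i => rfl
    have hd1 : ∀ j : Fin 3, dot n (fun i => MvPolynomial.pderiv (R := k) j.succ (R i)) = 0 := by
      intro j
      have h1 := hn j.succ
      have h2 : ∀ i, MvPolynomial.pderiv (R := k) j.succ ((wS ^ 2 • R) i) =
          wS ^ 2 * MvPolynomial.pderiv (R := k) j.succ (R i) := by
        intro i
        rw [hf, Derivation.leibniz, Derivation.leibniz_pow, hw0]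
        simp
      simp only [h2, dot] at h1
      have h3 : wS ^ 2 * dot n (fun i => MvPolynomial.pderiv (R := k) j.succ (R i)) = 0 := by
        rw [← h1]; simp only [dot]; ring
      exact (mul_eq_zero.mp h3).resolve_left (pow_ne_zero 2 hwS0)
    have hd0 : dot n R = 0 := by
      have h1 : dot n (fun i => ε (R i)) = 0 := by
        have e0 := hd1 0
        have e1 := hd1 1
        have e2 := hd1 2
        simp only [dot] at e0 e1 e2
        simp only [dot, hε]
        linear_combination MvPolynomial.X (Fin.succ 0) * e0 + MvPolynomial.X (Fin.succ 1) * e1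
          + MvPolynomial.X (Fin.succ 2) * e2
      rw [hεR] at h1
      simp only [dot, Pi.smul_apply, smul_eq_mul] at h1
      have h2 : (4 : MvPolynomial (Fin 4) k) * dot n R = 0 := by
        rw [← h1]; simp only [dot]; ring
      refine (mul_eq_zero.mp h2).resolve_left ?_
      have : (4 : MvPolynomial (Fin 4) k) = MvPolynomial.C 4 := (map_ofNat MvPolynomial.C 4).symm
      rw [this]; simp
    have hdD : dot n (fun i => MvPolynomial.pderiv (R := k) 0 (R i)) = 0 := by
      have h1 := hn 0
      have h2 : ∀ i, MvPolynomial.pderiv (R := k) 0 ((wS ^ 2 • R) i) =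
          2 * wS * MvPolynomial.pderiv (R := k) 0 wS * R i
            + wS ^ 2 * MvPolynomial.pderiv (R := k) 0 (R i) := by
        intro i
        rw [hf, Derivation.leibniz, Derivation.leibniz_pow]
        simp
        ring
      simp only [h2, dot] at h1
      have h3 : wS ^ 2 * dot n (fun i => MvPolynomial.pderiv (R := k) 0 (R i)) = 0 := by
        simp only [dot] at hd0 ⊢
        linear_combination h1 - 2 * wS * MvPolynomial.pderiv (R := k) 0 wS * hd0
      exact (mul_eq_zero.mp h3).resolve_left (pow_ne_zero 2 hwS0)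
    -- the gradient of gt
    have hN : ∀ y, dot (fun i => gt2 F wS pS R (Pi.single i 1)) y = gt2 F wS pS R y := by
      intro y
      conv_rhs => rw [gt2_basis]
      rw [Fin.sum_univ_three]
      simp only [dot]; ring
    have hN0 : dot (fun i => gt2 F wS pS R (Pi.single i 1)) R = 0 := by
      rw [hN, gt2_self]; exact gt_RR hwΦ
    have h4 : (4 : MvPolynomial (Fin 4) k) ≠ 0 := by
      have : (4 : MvPolynomial (Fin 4) k) = MvPolynomial.C 4 := (map_ofNat MvPolynomial.C 4).symm
      rw [this]; simp
    have hN1 : ∀ j : Fin 3, dot (fun i => gt2 F wS pS R (Pi.single i 1))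
        (fun i => MvPolynomial.pderiv (R := k) j.succ (R i)) = 0 := by
      intro j
      rw [hN]
      have h1 := gt_der0 (F := F) (x := R) (MvPolynomial.pderiv (R := k) j.succ) (hp0 j) (hw0 j)
      rw [hR, gt_RR hwΦ, map_zero, ← hR] at h1
      exact (mul_eq_zero.mp h1.symm).resolve_left h4
    -- a nonparallel direction
    obtain ⟨j, hj⟩ : ∃ j : Fin 3, dt pS xS (fun i => MvPolynomial.pderiv (R := k) j.succ (xS i))
        ≠ 0 := by
      by_contra hcon
      push Not at hcon
      have h1 : ∀ (c : Fin 3 → k[X]) (j : Fin 3), dt p c (Pi.single j 1) = 0 := by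
        intro c j
        have h2 := congrArg (psi c X) (hcon j)
        simp only [hdx] at h2
        unfold dt at h2
        simp only [map_add, map_mul, map_sub, map_zero, hpS, hxS, psi_iota_X, psi_X] at h2
        unfold dt
        rw [← h2]
        fin_cases j <;> simp
      have e0 := h1 (Pi.single 1 1) 2
      have e1 := h1 (Pi.single 2 1) 0
      have e2 := h1 (Pi.single 0 1) 1
      simp [dt] at e0 e1 e2
      have hp : p = 0 := by
        ext1 i; fin_cases i
        · exact e0
        · exact e1
        · exact e2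
      rw [hp, Φ_zero1] at hw
      exact hw0' (pow_eq_zero_iff (two_ne_zero) |>.mp hw.symm)
    have hdt : dt pS R (fun i => MvPolynomial.pderiv (R := k) j.succ (R i)) ≠ 0 := by
      have h1 := dt_RR (F := F) (w := wS) (x := xS) (MvPolynomial.pderiv (R := k) j.succ) (hp0 j)
      rw [← hR] at h1
      rw [h1]
      exact mul_ne_zero (pow_ne_zero 2 (mul_ne_zero (mul_ne_zero h4 (pow_ne_zero 2 hwS0)) hct)) hj
    have hfin := dot_prop hd0 (hd1 j) hN0 (hN1 j) hdt hn0 hdD
    rw [hN] at hfin
    have h5 := gt_der (F := F) (x := R) (MvPolynomial.pderiv (R := k) (0 : Fin 4))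
      (u := uS) (w' := iota k (derivative w)) (by ext1 i; exact pderiv_iota (p i)) (pderiv_iota w)
    rw [hfin, hR, gt_RR hwΦ, map_zero, ← hR] at h5
    have h6 := Φ_RR (x := xS) hwΦ
    rw [← hR] at h6
    have h7 : 2 * qt F wS pS R * EE F wS (iota k (derivative w)) pS uS R = 0 := by
      linear_combination h5 + 6 * iota k (derivative w) * h6
    have hu : 2 * F.Φ pS pS pS uS = wS * iota k (derivative w) := by
      have := two_Φ_der hwΦ (MvPolynomial.pderiv (R := k) (0 : Fin 4))
      have e1 : (fun i => MvPolynomial.pderiv (R := k) (0 : Fin 4) (pS i)) = uS := by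
        ext1 i; exact pderiv_iota (p i)
      rw [e1, hwS, pderiv_iota] at this
      exact this
    have h8 := EE_RR (x := xS) hwΦ hu
    rw [← hR] at h8
    rw [h8] at h7
    have h2 : (2 : MvPolynomial (Fin 4) k) ≠ 0 := by
      have : (2 : MvPolynomial (Fin 4) k) = MvPolynomial.C 2 := (map_ofNat MvPolynomial.C 2).symm
      rw [this]; simp
    exact mul_ne_zero (mul_ne_zero h2 hqt) (mul_ne_zero (pow_ne_zero 2 (mul_ne_zero
      (mul_ne_zero h4 (pow_ne_zero 2 hwS0)) hct)) hEE) h7)
  intro G hG
  refine hmain G.totalDegree G (fun m hm => ?_) hG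
  apply MvPolynomial.coeff_eq_zero_of_totalDegree_lt
  have : ∑ i ∈ m.support, m i = m 0 + m 1 + m 2 := by
    rw [← Fin.sum_univ_three (fun i => m i)]
    exact Finset.sum_subset (Finset.subset_univ _) (fun i _ hi => Finsupp.notMem_support_iff.mp hi)
  rw [this]; exact hm

end Pool.Agent.Work.MP_d5a5f5_ag.DP
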