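import Pool.Agent.Work.MP_d5a5f5_ag.DP.Basic

/-!
The tensor of a quartic form.
-/

namespace Pool.Agent.Work.MP_d5a5f5_ag.DP

open MvPolynomial

variable {k : Type*} [Field k]

theorem pderiv_comm' (i j : Fin 3) (q : MvPolynomial (Fin 3) k) :
    pderiv i (pderiv j q) = pderiv j (pderiv i q) := by
  ext m
  rw [coeff_pderiv, coeff_pderiv, coeff_pderiv, coeff_pderiv]
  rcases eq_or_ne i j with rfl | h
  · rfl
  · have e : m + Finsupp.single i 1 + Finsupp.single j 1
        = m + Finsupp.single j 1 + Finsupp.single i 1 := by abel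
    rw [e]
    simp [h, h.symm]
    ring

/-- every quartic form is given by a symmetric tensor -/
theorem exists_tensor [CharZero k] (Q : MvPolynomial (Fin 3) k) (hQ : Q.IsHomogeneous 4) :
    ∃ F : Quartic k, Q = F.Φ (fun i => (X i : MvPolynomial (Fin 3) k)) (fun i => X i)
      (fun i => X i) (fun i => X i) := by
  let c : Fin 3 → Fin 3 → Fin 3 → Fin 3 → k := fun i j l m =>
    coeff 0 (pderiv i (pderiv j (pderiv l (pderiv m Q))))
  have hc : ∀ i j l m, pderiv i (pderiv j (pderiv l (pderiv m Q))) = C (c i j l m) := by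
    intro i j l m
    have h0 : (pderiv i (pderiv j (pderiv l (pderiv m Q)))).IsHomogeneous 0 :=
      hQ.pderiv.pderiv.pderiv.pderiv
    rw [← totalDegree_zero_iff_isHomogeneous, totalDegree_eq_zero_iff_eq_C] at h0
    exact h0
  refine ⟨⟨fun i j l m => c i j l m / 24, ?_, ?_, ?_⟩, ?_⟩
  · intro i j l m; simp only [c]; rw [pderiv_comm']
  · intro i j l m; simp only [c]; rw [pderiv_comm' j l]
  · intro i j l m; simp only [c]; rw [pderiv_comm' l m]
  · have e1 : ∀ j l m, pderiv j (pderiv l (pderiv m Q)) = ∑ i, X i * C (c i j l m) := by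
      intro j l m
      have := (hQ.pderiv (i := m)).pderiv (i := l) |>.pderiv (i := j) |>.sum_X_mul_pderiv
      simp only [hc] at this
      rw [this]; simp
    have e2 : ∀ l m, 2 * pderiv l (pderiv m Q) = ∑ j, X j * ∑ i, X i * C (c i j l m) := by
      intro l m
      have := (hQ.pderiv (i := m)).pderiv (i := l) |>.sum_X_mul_pderiv
      simp only [e1] at this
      rw [this]; simp
    have e3 : ∀ m, 6 * pderiv m Q = ∑ l, X l * ∑ j, X j * ∑ i, X i * C (c i j l m) := by
      intro m
      have := (hQ.pderiv (i := m)) |>.sum_X_mul_pderiv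
      simp only [← e2]
      have h2 : ∑ l, (X l : MvPolynomial (Fin 3) k) * (2 * pderiv l (pderiv m Q)) =
          2 * ∑ l, X l * pderiv l (pderiv m Q) := by
        rw [Finset.mul_sum]; exact Finset.sum_congr rfl fun i _ => by ring
      rw [h2, this]; simp; ring
    have e4 : 24 * Q = ∑ m, X m * ∑ l, X l * ∑ j, X j * ∑ i, X i * C (c i j l m) := by
      have := hQ.sum_X_mul_pderiv
      simp only [← e3]
      have h2 : ∑ l, (X l : MvPolynomial (Fin 3) k) * (6 * pderiv l Q) =
          6 * ∑ l, X l * pderiv l Q := by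
        rw [Finset.mul_sum]; exact Finset.sum_congr rfl fun i _ => by ring
      rw [h2, this]; simp; ring
    have h24 : (24 : MvPolynomial (Fin 3) k) ≠ 0 := by
      have : (24 : MvPolynomial (Fin 3) k) = C 24 := (map_ofNat C 24).symm
      rw [this]; simp
    apply mul_left_cancel₀ h24
    rw [e4]
    unfold Quartic.Φ
    simp only [Finset.mul_sum]
    have hh : ∀ i j l m : Fin 3, (24 : MvPolynomial (Fin 3) k) *
        ((algebraMap k (MvPolynomial (Fin 3) k)) (c i j l m / 24) * (X i * X j * X l * X m)) =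
        X m * (X l * (X j * (X i * C (c i j l m)))) := by
      intro i j l m
      rw [MvPolynomial.algebraMap_eq]
      have : (C (c i j l m) : MvPolynomial (Fin 3) k) = 24 * C (c i j l m / 24) := by
        have e : (24 : MvPolynomial (Fin 3) k) = C 24 := (map_ofNat C 24).symm
        rw [e, ← C_mul]; congr 1; field_simp
      rw [this]; ring
    simp only [hh]
    simp only [Fin.sum_univ_three]
    abel

theorem aeval_tensor {F : Quartic k} {Q : MvPolynomial (Fin 3) k}
    (h : Q = F.Φ (fun i => (X i : MvPolynomial (Fin 3) k)) (fun i => X i)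
      (fun i => X i) (fun i => X i)) {A : Type*} [CommRing A] [Algebra k A] (x : Fin 3 → A) :
    aeval x Q = F.Φ x x x x := by
  conv_lhs => rw [h]
  rw [Φ_map]
  simp

theorem aeval_pderiv_tensor {F : Quartic k} {Q : MvPolynomial (Fin 3) k}
    (h : Q = F.Φ (fun i => (X i : MvPolynomial (Fin 3) k)) (fun i => X i)
      (fun i => X i) (fun i => X i)) {A : Type*} [CommRing A] [Algebra k A] (x : Fin 3 → A)
    (i : Fin 3) :
    aeval x (pderiv i Q) = 4 * F.Φ x x x (Pi.single i 1) := by
  have e : (fun j => pderiv i (X j : MvPolynomial (Fin 3) k)) = Pi.single i 1 := by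
    ext j; rw [pderiv_X]
  have e2 : (fun j => (aeval x) ((Pi.single i (1 : MvPolynomial (Fin 3) k) :
      Fin 3 → MvPolynomial (Fin 3) k) j)) = Pi.single i 1 := by
    ext j; simp only [Pi.single_apply]; split_ifs <;> simp
  conv_lhs => rw [h]
  rw [Φ_der, e]
  simp only [map_add, Φ_map, aeval_X, e2]
  rw [Φ_s12 F (Pi.single i 1), Φ_s23 F x (Pi.single i 1), Φ_s34 F x x (Pi.single i 1)]
  ring

end Pool.Agent.Work.MP_d5a5f5_ag.DP
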